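import Pool.Agent.Lib.MP_ab035a_co.Gadget

/-!
# Adjusting the weight of a placement by swaps in separated gadgets
-/

set_option autoImplicit false

namespace Pool.Agent.Lib.MP_ab035a_co

open Finset

section Bilin

variable {X : Type*} [Fintype X]

/-- Bilinear extension of a matrix. -/
def lin2 (a : X → X → ℤ) (u v : X → ℤ) : ℤ := ∑ p, ∑ q, a p q * (u p * v q)

/-- The bilinear form on matrices attached to `a` and `c`. -/
def bil (a c : X → X → ℤ) (M N : X → X → ℤ) : ℤ :=
  ∑ p, ∑ q, ∑ x, ∑ y, a p q * c x y * (M p x * N q y)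

lemma bil_add_left (a c M M' N : X → X → ℤ) :
    bil a c (M + M') N = bil a c M N + bil a c M' N := by
  simp only [bil, ← Finset.sum_add_distrib, Pi.add_apply]
  refine Finset.sum_congr rfl fun p _ => Finset.sum_congr rfl fun q _ =>
    Finset.sum_congr rfl fun x _ => Finset.sum_congr rfl fun y _ => by ring

lemma bil_add_right (a c M N N' : X → X → ℤ) :
    bil a c M (N + N') = bil a c M N + bil a c M N' := by
  simp only [bil, ← Finset.sum_add_distrib, Pi.add_apply]
  refine Finset.sum_congr rfl fun p _ => Finset.sum_congr rfl fun q _ =>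
    Finset.sum_congr rfl fun x _ => Finset.sum_congr rfl fun y _ => by ring

lemma bil_zero_left (a c N : X → X → ℤ) : bil a c 0 N = 0 := by simp [bil]

lemma bil_zero_right (a c N : X → X → ℤ) : bil a c N 0 = 0 := by simp [bil]

lemma bil_comm (a c : X → X → ℤ) (ha : ∀ x y, a x y = a y x) (hc : ∀ x y, c x y = c y x)
    (M N : X → X → ℤ) : bil a c M N = bil a c N M := by
  unfold bil
  rw [Finset.sum_comm]
  refine Finset.sum_congr rfl fun q _ => Finset.sum_congr rfl fun p _ => ?_
  rw [Finset.sum_comm]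
  refine Finset.sum_congr rfl fun y _ => Finset.sum_congr rfl fun x _ => ?_
  rw [ha p q, hc x y]; ring

lemma bil_sum_left {ι : Type*} (a c : X → X → ℤ) (J : Finset ι) (R : ι → X → X → ℤ)
    (N : X → X → ℤ) : bil a c (∑ i ∈ J, R i) N = ∑ i ∈ J, bil a c (R i) N := by
  classical
  induction J using Finset.induction_on with
  | empty => simp [bil_zero_left]
  | insert i J hi ih => rw [Finset.sum_insert hi, Finset.sum_insert hi, bil_add_left, ih]

lemma bil_rank_one (a c : X → X → ℤ) (u v u' v' : X → ℤ) :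
    bil a c (fun p x => u p * v x) (fun p x => u' p * v' x) = lin2 a u u' * lin2 c v v' := by
  unfold bil lin2
  rw [Finset.sum_mul]
  refine Finset.sum_congr rfl fun p _ => ?_
  rw [Finset.sum_mul]
  refine Finset.sum_congr rfl fun q _ => ?_
  rw [Finset.mul_sum]
  refine Finset.sum_congr rfl fun x _ => ?_
  rw [Finset.mul_sum]
  refine Finset.sum_congr rfl fun y _ => by ring

/-- Quadratic expansion for mutually orthogonal increments. -/
lemma bil_quad_sum {ι : Type*} (a c : X → X → ℤ) (ha : ∀ x y, a x y = a y x)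
    (hc : ∀ x y, c x y = c y x) (M : X → X → ℤ) (J : Finset ι) (R : ι → X → X → ℤ)
    (horth : ∀ i ∈ J, ∀ j ∈ J, i ≠ j → bil a c (R i) (R j) = 0) :
    bil a c (M + ∑ i ∈ J, R i) (M + ∑ i ∈ J, R i) =
      bil a c M M + ∑ i ∈ J, (2 * bil a c M (R i) + bil a c (R i) (R i)) := by
  classical
  induction J using Finset.induction_on with
  | empty => simp
  | insert i J hi ih =>
    have ih' := ih (fun j hj l hl => horth j (Finset.mem_insert_of_mem hj) l
      (Finset.mem_insert_of_mem hl))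
    rw [Finset.sum_insert hi, Finset.sum_insert hi]
    have e1 : M + (R i + ∑ j ∈ J, R j) = (M + ∑ j ∈ J, R j) + R i := by abel
    have e3 : ∀ P Q : X → X → ℤ, bil a c (P + Q) (P + Q) =
        bil a c P P + 2 * bil a c P Q + bil a c Q Q := by
      intro P Q
      rw [bil_add_left, bil_add_right, bil_add_right, bil_comm a c ha hc Q P]; ring
    rw [e1, e3, ih', bil_add_left, bil_sum_left]
    have e2 : ∑ j ∈ J, bil a c (R j) (R i) = 0 := by
      apply Finset.sum_eq_zero
      intro j hj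
      apply horth j (Finset.mem_insert_of_mem hj) i (Finset.mem_insert_self _ _)
      rintro rfl; exact hi hj
    rw [e2]; ring

variable [DecidableEq X]

/-- Difference of two unit vectors. -/
def ev (z z' : X) : X → ℤ := fun p => (if p = z then 1 else 0) - (if p = z' then 1 else 0)

lemma lin2_ev (a : X → X → ℤ) (z z' w w' : X) :
    lin2 a (ev z z') (ev w w') = dd a z z' w w' := by
  simp only [lin2, ev, dd]
  have : ∀ p q, a p q * (((if p = z then (1 : ℤ) else 0) - if p = z' then 1 else 0) *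
      ((if q = w then 1 else 0) - if q = w' then 1 else 0)) =
      (if p = z then (if q = w then a p q else 0) else 0) -
      (if p = z then (if q = w' then a p q else 0) else 0) -
      (if p = z' then (if q = w then a p q else 0) else 0) +
      (if p = z' then (if q = w' then a p q else 0) else 0) := by
    intro p q
    split_ifs <;> ring
  simp only [this, Finset.sum_add_distrib, Finset.sum_sub_distrib]
  have key : ∀ z w : X, ∑ p, ∑ q, (if p = z then (if q = w then a p q else 0) else 0) = a z w := by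
    intro z w
    rw [Finset.sum_eq_single z]
    · rw [Finset.sum_eq_single w]
      · simp
      · intro q _ hq; simp [hq]
      · intro h; exact absurd (Finset.mem_univ _) h
    · intro p _ hp; simp [hp]
    · intro h; exact absurd (Finset.mem_univ _) h
  rw [key, key, key, key]

/-- The matrix of a swap minus the identity matrix. -/
def nm (z z' : X) : X → X → ℤ := fun p x => (-1 * ev z z' p) * ev z z' x

lemma nm_left {z z' : X} (h : z ≠ z') (x : X) :
    nm z z' z x = (if z' = x then 1 else 0) - (if z = x then 1 else 0) := by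
  simp only [nm, ev, if_true, if_neg h, eq_comm (a := x)]; ring

lemma nm_right {z z' : X} (h : z ≠ z') (x : X) :
    nm z z' z' x = (if z = x then 1 else 0) - (if z' = x then 1 else 0) := by
  simp only [nm, ev, if_true, if_neg h.symm, eq_comm (a := x)]; ring

lemma bil_nm (a c : X → X → ℤ) (z z' w w' : X) :
    bil a c (nm z z') (nm w w') = dd a z z' w w' * dd c z z' w w' := by
  have h1 : nm z z' = fun p x => (fun p => -1 * ev z z' p) p * ev z z' x := rfl
  have h2 : nm w w' = fun p x => (fun p => -1 * ev w w' p) p * ev w w' x := rfl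
  rw [h1, h2, bil_rank_one, ← lin2_ev a, ← lin2_ev c]
  congr 1
  unfold lin2
  refine Finset.sum_congr rfl fun p _ => Finset.sum_congr rfl fun q _ => by ring

/-- Matrix of a map. -/
def pm (π : X → X) : X → X → ℤ := fun p x => if π p = x then 1 else 0

lemma bil_pm (a c : X → X → ℤ) (π : X → X) :
    bil a c (pm π) (pm π) = ∑ p, ∑ q, a p q * c (π p) (π q) := by
  unfold bil pm
  refine Finset.sum_congr rfl fun p _ => Finset.sum_congr rfl fun q _ => ?_
  rw [Finset.sum_eq_single (π p)]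
  · rw [Finset.sum_eq_single (π q)]
    · simp
    · intro y _ hy; simp [hy.symm]
    · intro h; exact absurd (Finset.mem_univ _) h
  · intro x _ hx
    apply Finset.sum_eq_zero
    intro y _; simp [hx.symm]
  · intro h; exact absurd (Finset.mem_univ _) h

lemma exists_perm {ι : Type*} (T : Finset ι) (z z' : ι → X)
    (h1 : ∀ i ∈ T, ∀ j ∈ T, i ≠ j → z i ≠ z j ∧ z i ≠ z' j ∧ z' i ≠ z j ∧ z' i ≠ z' j)
    (h2 : ∀ i ∈ T, z i ≠ z' i) :
    ∃ π : Equiv.Perm X, (∀ x, (∀ i ∈ T, x ≠ z i ∧ x ≠ z' i) → π x = x) ∧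
      pm π = pm id + ∑ i ∈ T, nm (z i) (z' i) := by
  classical
  induction T using Finset.induction_on with
  | empty => exact ⟨1, fun x _ => rfl, by simp⟩
  | insert i T hi ih =>
    obtain ⟨π, hfix, hπ⟩ := ih
      (fun j hj l hl => h1 j (Finset.mem_insert_of_mem hj) l (Finset.mem_insert_of_mem hl))
      (fun j hj => h2 j (Finset.mem_insert_of_mem hj))
    have hz : ∀ j ∈ T, z i ≠ z j ∧ z i ≠ z' j ∧ z' i ≠ z j ∧ z' i ≠ z' j := fun j hj =>
      h1 i (Finset.mem_insert_self _ _) j (Finset.mem_insert_of_mem hj)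
        (by rintro rfl; exact hi hj)
    have hne := h2 i (Finset.mem_insert_self _ _)
    have f1 : π (z i) = z i := hfix _ (fun j hj => ⟨(hz j hj).1, (hz j hj).2.1⟩)
    have f2 : π (z' i) = z' i := hfix _ (fun j hj => ⟨(hz j hj).2.2.1, (hz j hj).2.2.2⟩)
    refine ⟨π * Equiv.swap (z i) (z' i), ?_, ?_⟩
    · intro x hx
      have hxi := hx i (Finset.mem_insert_self _ _)
      rw [Equiv.Perm.mul_apply, Equiv.swap_apply_of_ne_of_ne hxi.1 hxi.2]
      exact hfix x (fun j hj => hx j (Finset.mem_insert_of_mem hj))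
    · funext p x
      rw [Finset.sum_insert hi]
      have hπ' := congrFun (congrFun hπ p) x
      simp only [Pi.add_apply] at hπ' ⊢
      have e0 : pm (⇑(π * Equiv.swap (z i) (z' i))) p x = pm π p x + nm (z i) (z' i) p x := by
        have e00 : pm (⇑(π * Equiv.swap (z i) (z' i))) p x =
            pm π (Equiv.swap (z i) (z' i) p) x := rfl
        have g1 : pm π (z i) x = if z i = x then 1 else 0 := by simp only [pm, f1]
        have g2 : pm π (z' i) x = if z' i = x then 1 else 0 := by simp only [pm, f2]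
        rw [e00]
        by_cases hp : p = z i
        · rw [hp, Equiv.swap_apply_left, g1, g2, nm_left hne]; ring
        · by_cases hp' : p = z' i
          · rw [hp', Equiv.swap_apply_right, g1, g2, nm_right hne]; ring
          · rw [Equiv.swap_apply_of_ne_of_ne hp hp']
            simp [nm, ev, hp, hp']
      rw [e0, hπ']; ring

/-- **Adjustment lemma.** -/
lemma adjust (k d m : ℕ) (hk : 0 < k) (hd : d ∣ k) (hm : 16 * k ^ 3 ≤ m)
    (a c : X → X → ℤ) (ha : ∀ x y, a x y = a y x) (hc : ∀ x y, c x y = c y x)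
    (z : Fin m → Fin 4 → X) (hinj : ∀ g i g' i', z g i = z g' i' → g = g' ∧ i = i')
    (h00 : ∀ g g', g ≠ g' → dd a (z g 0) (z g 1) (z g' 0) (z g' 1) *
      dd c (z g 0) (z g 1) (z g' 0) (z g' 1) = 0)
    (h01 : ∀ g g', g ≠ g' → dd a (z g 0) (z g 1) (z g' 2) (z g' 3) *
      dd c (z g 0) (z g 1) (z g' 2) (z g' 3) = 0)
    (h11 : ∀ g g', g ≠ g' → dd a (z g 2) (z g 3) (z g' 2) (z g' 3) *
      dd c (z g 2) (z g 3) (z g' 2) (z g' 3) = 0)
    (δ : ℤ) (hδ : ∀ g, dd a (z g 0) (z g 1) (z g 2) (z g 3) *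
      dd c (z g 0) (z g 1) (z g 2) (z g 3) ≡ δ [ZMOD d])
    (t : ℕ) (ht : t ≤ 2 * k) :
    ∃ π : Equiv.Perm X, (∀ x, (∀ g i, x ≠ z g i) → π x = x) ∧
      ∑ p, ∑ q, a p q * c (π p) (π q) ≡ ∑ p, ∑ q, a p q * c p q + 2 * t * δ
        [ZMOD (2 * d : ℕ)] := by
  classical
  let N0 : Fin m → X → X → ℤ := fun g => nm (z g 0) (z g 1)
  let N1 : Fin m → X → X → ℤ := fun g => nm (z g 2) (z g 3)
  let I : X → X → ℤ := pm id
  have b00 : ∀ g g', g ≠ g' → bil a c (N0 g) (N0 g') = 0 := fun g g' h => by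
    simp only [N0]; rw [bil_nm]; exact h00 g g' h
  have b01 : ∀ g g', g ≠ g' → bil a c (N0 g) (N1 g') = 0 := fun g g' h => by
    simp only [N0, N1]; rw [bil_nm]; exact h01 g g' h
  have b10 : ∀ g g', g ≠ g' → bil a c (N1 g) (N0 g') = 0 := fun g g' h => by
    rw [bil_comm a c ha hc]; exact b01 g' g h.symm
  have b11 : ∀ g g', g ≠ g' → bil a c (N1 g) (N1 g') = 0 := fun g g' h => by
    simp only [N1]; rw [bil_nm]; exact h11 g g' h
  let α : Fin m → ℤ := fun g => 2 * bil a c I (N0 g) + bil a c (N0 g) (N0 g)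
  let β : Fin m → ℤ := fun g => 2 * bil a c I (N1 g) + bil a c (N1 g) (N1 g)
  have : NeZero (2 * k) := ⟨by omega⟩
  -- pigeonhole
  obtain ⟨⟨A, B⟩, hAB⟩ := exists_color_class (Finset.univ : Finset (Fin m))
    (fun g => (((α g : ℤ) : ZMod (2 * k)), ((β g : ℤ) : ZMod (2 * k)))) (4 * k) (by
      rw [Fintype.card_prod, ZMod.card, Finset.card_univ, Fintype.card_fin]
      calc 2 * k * (2 * k) * (4 * k) = 16 * k ^ 3 := by ring
        _ ≤ m := hm)
  set J := (Finset.univ : Finset (Fin m)).filter (fun g =>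
    (((α g : ℤ) : ZMod (2 * k)), ((β g : ℤ) : ZMod (2 * k))) = (A, B)) with hJ
  have hJc : 4 * k ≤ J.card := by rw [hJ]; convert hAB
  have hJA : ∀ g ∈ J, ((α g : ℤ) : ZMod (2 * k)) = A ∧ ((β g : ℤ) : ZMod (2 * k)) = B := by
    intro g hg
    rw [hJ, Finset.mem_filter] at hg
    exact Prod.mk.inj hg.2
  obtain ⟨J1, hJ1, hc1⟩ := Finset.exists_subset_card_eq (show 2 * k - t ≤ J.card by omega)
  obtain ⟨J2, hJ2, hc2⟩ := Finset.exists_subset_card_eq (s := J \ J1)
    (show 2 * k - t ≤ (J \ J1).card by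
      rw [Finset.card_sdiff_of_subset hJ1]; omega)
  obtain ⟨J3, hJ3, hc3⟩ := Finset.exists_subset_card_eq (s := (J \ J1) \ J2)
    (show t ≤ ((J \ J1) \ J2).card by
      rw [Finset.card_sdiff_of_subset hJ2, Finset.card_sdiff_of_subset hJ1]; omega)
  have d12 : Disjoint J1 J2 := (Finset.disjoint_of_subset_left hJ2 Finset.sdiff_disjoint).symm
  have d13 : Disjoint J1 J3 := (Finset.disjoint_of_subset_left (hJ3.trans Finset.sdiff_subset)
    Finset.sdiff_disjoint).symm
  have d23 : Disjoint J2 J3 := (Finset.disjoint_of_subset_left hJ3 Finset.sdiff_disjoint).symm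
  have hJ2' : J2 ⊆ J := hJ2.trans Finset.sdiff_subset
  have hJ3' : J3 ⊆ J := hJ3.trans (Finset.sdiff_subset.trans Finset.sdiff_subset)
  -- the permutation
  let T : Finset (Fin m × Bool) := (J1 ∪ J3) ×ˢ {false} ∪ (J2 ∪ J3) ×ˢ {true}
  let za : Fin m × Bool → X := fun i => if i.2 then z i.1 2 else z i.1 0
  let zb : Fin m × Bool → X := fun i => if i.2 then z i.1 3 else z i.1 1
  have hne4 : ∀ (g g' : Fin m) (i i' : Fin 4), (g ≠ g' ∨ i ≠ i') → z g i ≠ z g' i' := by
    intro g g' i i' h he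
    have := hinj _ _ _ _ he
    rcases h with h | h
    · exact h this.1
    · exact h this.2
  obtain ⟨π, hfix, hπ⟩ := exists_perm T za zb (by
    rintro ⟨g, s⟩ _ ⟨g', s'⟩ _ hne
    by_cases hg : g = g'
    · subst hg
      have hs : s ≠ s' := fun h => hne (by rw [h])
      cases s <;> cases s' <;> simp only [za, zb] <;> first | exact absurd rfl hs |
        (refine ⟨hne4 _ _ _ _ (Or.inr (by decide)), hne4 _ _ _ _ (Or.inr (by decide)),
          hne4 _ _ _ _ (Or.inr (by decide)), hne4 _ _ _ _ (Or.inr (by decide))⟩)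
    · cases s <;> cases s' <;> simp only [za, zb] <;>
        exact ⟨hne4 _ _ _ _ (Or.inl hg), hne4 _ _ _ _ (Or.inl hg), hne4 _ _ _ _ (Or.inl hg),
          hne4 _ _ _ _ (Or.inl hg)⟩) (by
    rintro ⟨g, s⟩ _
    cases s <;> simp only [za, zb] <;> exact hne4 _ _ _ _ (Or.inr (by decide)))
  refine ⟨π, ?_, ?_⟩
  · intro x hx
    apply hfix
    rintro ⟨g, s⟩ _
    cases s <;> simp only [za, zb] <;> exact ⟨hx _ _, hx _ _⟩
  -- the increments
  let R : Fin m → X → X → ℤ := fun g =>
    if g ∈ J1 then N0 g else if g ∈ J2 then N1 g else N0 g + N1 g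
  have hsumT : ∑ i ∈ T, nm (za i) (zb i) = ∑ g ∈ J1 ∪ J2 ∪ J3, R g := by
    have hdT : Disjoint ((J1 ∪ J3) ×ˢ ({false} : Finset Bool)) ((J2 ∪ J3) ×ˢ {true}) := by
      rw [Finset.disjoint_left]
      rintro ⟨g, s⟩ h h'
      rw [Finset.mem_product, Finset.mem_singleton] at h h'
      have := h.2.symm.trans h'.2
      exact absurd this (by decide)
    rw [Finset.sum_union hdT, Finset.sum_product, Finset.sum_product]
    simp only [Finset.sum_singleton]
    rw [Finset.sum_union d13, Finset.sum_union d23,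
      Finset.sum_union (Finset.disjoint_union_left.mpr ⟨d13, d23⟩), Finset.sum_union d12]
    have r1 : ∑ g ∈ J1, R g = ∑ g ∈ J1, N0 g := Finset.sum_congr rfl (fun g hg => by
      simp only [R, if_pos hg])
    have r2 : ∑ g ∈ J2, R g = ∑ g ∈ J2, N1 g := Finset.sum_congr rfl (fun g hg => by
      have : g ∉ J1 := fun h => Finset.disjoint_left.mp d12 h hg
      simp only [R, if_neg this, if_pos hg])
    have r3 : ∑ g ∈ J3, R g = ∑ g ∈ J3, N0 g + ∑ g ∈ J3, N1 g := by
      rw [← Finset.sum_add_distrib]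
      refine Finset.sum_congr rfl (fun g hg => ?_)
      have h1 : g ∉ J1 := fun h => Finset.disjoint_left.mp d13 h hg
      have h2 : g ∉ J2 := fun h => Finset.disjoint_left.mp d23 h hg
      simp only [R, if_neg h1, if_neg h2]
    rw [r1, r2, r3]
    simp only [za, zb, N0, N1, if_true, Bool.false_eq_true, if_false]
    abel
  have horth : ∀ i ∈ J1 ∪ J2 ∪ J3, ∀ j ∈ J1 ∪ J2 ∪ J3, i ≠ j → bil a c (R i) (R j) = 0 := by
    intro i _ j _ hij
    simp only [R]
    split_ifs <;> simp only [bil_add_left, bil_add_right, b00 _ _ hij, b01 _ _ hij, b10 _ _ hij,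
      b11 _ _ hij, add_zero]
  have hQ := bil_quad_sum a c ha hc I (J1 ∪ J2 ∪ J3) R horth
  rw [← hsumT] at hQ
  rw [← bil_pm a c π, hπ, hQ]
  have hI : bil a c I I = ∑ p, ∑ q, a p q * c p q := by
    simp only [I]; rw [bil_pm]; rfl
  rw [hI]
  apply Int.ModEq.add_left
  rw [Finset.sum_union (Finset.disjoint_union_left.mpr ⟨d13, d23⟩), Finset.sum_union d12]
  have r1 : ∑ g ∈ J1, (2 * bil a c I (R g) + bil a c (R g) (R g)) = ∑ g ∈ J1, α g :=
    Finset.sum_congr rfl (fun g hg => by simp only [R, if_pos hg, α])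
  have r2 : ∑ g ∈ J2, (2 * bil a c I (R g) + bil a c (R g) (R g)) = ∑ g ∈ J2, β g :=
    Finset.sum_congr rfl (fun g hg => by
      have : g ∉ J1 := fun h => Finset.disjoint_left.mp d12 h hg
      simp only [R, if_neg this, if_pos hg, β])
  have r3 : ∑ g ∈ J3, (2 * bil a c I (R g) + bil a c (R g) (R g)) =
      ∑ g ∈ J3, α g + ∑ g ∈ J3, β g + 2 * ∑ g ∈ J3, dd a (z g 0) (z g 1) (z g 2) (z g 3) *
      dd c (z g 0) (z g 1) (z g 2) (z g 3) := by
    rw [← Finset.sum_add_distrib, Finset.mul_sum, ← Finset.sum_add_distrib]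
    refine Finset.sum_congr rfl (fun g hg => ?_)
    have h1 : g ∉ J1 := fun h => Finset.disjoint_left.mp d13 h hg
    have h2 : g ∉ J2 := fun h => Finset.disjoint_left.mp d23 h hg
    have h3 : R g = N0 g + N1 g := by simp only [R, if_neg h1, if_neg h2]
    have h4 : bil a c (N0 g) (N1 g) = dd a (z g 0) (z g 1) (z g 2) (z g 3) *
      dd c (z g 0) (z g 1) (z g 2) (z g 3) := by simp only [N0, N1]; rw [bil_nm]
    rw [h3, bil_add_right, bil_add_right, bil_add_left, bil_add_left,
      bil_comm a c ha hc (N1 g) (N0 g), h4]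
    simp only [α, β]; ring
  rw [r1, r2, r3]
  -- congruences
  have e2d : ((2 * d : ℕ) : ℤ) ∣ ((2 * k : ℕ) : ℤ) := by
    exact_mod_cast Nat.mul_dvd_mul_left 2 hd
  have hsumα : ∀ J' ⊆ J, ∑ g ∈ J', α g ≡ J'.card * A.val [ZMOD (2 * d : ℕ)] := by
    intro J' hJ'
    apply Int.ModEq.of_dvd e2d
    rw [← ZMod.intCast_eq_intCast_iff]
    push_cast
    rw [Finset.sum_congr rfl (fun g hg => (hJA g (hJ' hg)).1)]
    simp
  have hsumβ : ∀ J' ⊆ J, ∑ g ∈ J', β g ≡ J'.card * B.val [ZMOD (2 * d : ℕ)] := by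
    intro J' hJ'
    apply Int.ModEq.of_dvd e2d
    rw [← ZMod.intCast_eq_intCast_iff]
    push_cast
    rw [Finset.sum_congr rfl (fun g hg => (hJA g (hJ' hg)).2)]
    simp
  have hsumδ : 2 * ∑ g ∈ J3, dd a (z g 0) (z g 1) (z g 2) (z g 3) *
      dd c (z g 0) (z g 1) (z g 2) (z g 3) ≡ 2 * (J3.card * δ) [ZMOD (2 * d : ℕ)] := by
    have h1 : ∑ g ∈ J3, dd a (z g 0) (z g 1) (z g 2) (z g 3) *
      dd c (z g 0) (z g 1) (z g 2) (z g 3) ≡ J3.card * δ [ZMOD d] := by
      have : (J3.card : ℤ) * δ = ∑ _g ∈ J3, δ := by simp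
      rw [this]
      exact Int.ModEq.sum (fun g _ => hδ g)
    have h2 := Int.ModEq.mul_left' (c := 2) h1
    push_cast
    exact h2
  have h1 := hsumα J1 hJ1
  have h2 := hsumβ J2 hJ2'
  have h3 := hsumα J3 hJ3'
  have h4 := hsumβ J3 hJ3'
  have h5 := (h1.add h2).add ((h3.add h4).add hsumδ)
  refine h5.trans ?_
  rw [hc1, hc2, hc3]
  have ht' : ((2 * k - t : ℕ) : ℤ) = 2 * k - t := by push_cast [ht]; ring
  rw [ht']
  have h6 : (2 * (k : ℤ) - t) * A.val + (2 * k - t) * B.val + (t * A.val + t * B.val +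
      2 * (t * δ)) = 2 * t * δ + (2 * k : ℕ) * (A.val + B.val) := by push_cast; ring
  rw [h6]
  obtain ⟨e, he⟩ := e2d
  rw [he]
  have : 2 * (t : ℤ) * δ + ((2 * d : ℕ) : ℤ) * e * (A.val + B.val) =
    2 * t * δ + ((2 * d : ℕ) : ℤ) * (e * (A.val + B.val)) := by ring
  rw [this]
  exact Int.modEq_iff_dvd.mpr ⟨-(e * (A.val + B.val)), by ring⟩

end Bilin

end Pool.Agent.Lib.MP_ab035a_co
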