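import Pool.Agent.Lib.MP_ab035a_co.Sums

/-!
# The three kinds of frames
-/

set_option autoImplicit false

namespace Pool.Agent.Lib.MP_ab035a_co

open Finset

variable {k : ℕ}

/-- Weight restricted to `P`. -/
def wtOn (I : Inst k) (P : Finset (Fin I.n)) (φ : Fin I.n → Fin I.N) : ℤ :=
  ∑ u ∈ P, ∑ v ∈ P, I.A u v * I.c (φ u) (φ v)

lemma wtOn_univ (I : Inst k) (φ : Fin I.n → Fin I.N) : wtOn I univ φ = wt I.A I.c φ := rfl

lemma wtOn_congr (I : Inst k) (P : Finset (Fin I.n)) (φ φ' : Fin I.n → Fin I.N)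
    (h : ∀ u ∈ P, φ' u = φ u) : wtOn I P φ' = wtOn I P φ := by
  unfold wtOn
  refine Finset.sum_congr rfl fun u hu => Finset.sum_congr rfl fun v hv => ?_
  rw [h u hu, h v hv]

/-- Both the weight and the number of edges are unchanged modulo `2 N` by adding a group. -/
lemma inv_step (I : Inst k) (N : ℕ) (γ : ℤ) (P Y : Finset (Fin I.n))
    (φ φ' : Fin I.n → Fin I.N) (h : Disjoint P Y) (hY : 2 * N ∣ Y.card)
    (hag : ∀ u ∈ P, φ' u = φ u)
    (h1 : ∀ p ∈ P, ∀ y ∈ Y, ∀ y' ∈ Y,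
      I.A y p * I.c (φ' y) (φ' p) ≡ I.A y' p * I.c (φ' y') (φ' p) [ZMOD N])
    (h2 : ∀ a ∈ Y, ∀ b ∈ Y, ∀ c ∈ Y, ∀ e ∈ Y, a ≠ b → c ≠ e →
      I.A a b * I.c (φ' a) (φ' b) ≡ I.A c e * I.c (φ' c) (φ' e) [ZMOD N])
    (h3 : ∀ p ∈ P, ∀ y ∈ Y, ∀ y' ∈ Y, I.A y p = I.A y' p)
    (h4 : ∀ a ∈ Y, ∀ b ∈ Y, ∀ c ∈ Y, ∀ e ∈ Y, a ≠ b → c ≠ e → I.A a b = I.A c e)
    (hinv : wtOn I P φ ≡ γ * ∑ u ∈ P, ∑ v ∈ P, I.A u v [ZMOD (2 * N : ℕ)]) :
    wtOn I (P ∪ Y) φ' ≡ γ * ∑ u ∈ P ∪ Y, ∑ v ∈ P ∪ Y, I.A u v [ZMOD (2 * N : ℕ)] := by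
  have e1 : wtOn I (P ∪ Y) φ' ≡ wtOn I P φ' [ZMOD (2 * N : ℕ)] :=
    group_sum N (fun u v => I.A u v * I.c (φ' u) (φ' v))
      (fun u v => by rw [I.A_symm u v, I.c_symm (φ' u) (φ' v)])
      (fun u => by rw [I.A_diag]; ring) P Y h hY h1 h2
  have e2 : ∑ u ∈ P ∪ Y, ∑ v ∈ P ∪ Y, I.A u v ≡ ∑ u ∈ P, ∑ v ∈ P, I.A u v [ZMOD (2 * N : ℕ)] :=
    group_sum N I.A I.A_symm I.A_diag P Y h hY
      (fun p hp y hy y' hy' => by rw [h3 p hp y hy y' hy'])
      (fun a ha b hb c hc e he hab hce => by rw [h4 a ha b hb c hc e he hab hce])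
  rw [wtOn_congr I P φ φ' hag] at e1
  exact e1.trans (hinv.trans (Int.ModEq.mul_left γ e2.symm))

/-! ### Bounded vertex cover -/

/-- Frame for graphs with a bounded vertex cover. -/
noncomputable def frameV (I : Inst k) {ν : ℕ} (ζ : Fin ν → Fin I.n) (φ0 : Fin I.n → Fin I.N)
    (γ : ℤ) (hcov : ∀ u v, I.A u v ≠ 0 → (∃ i, ζ i = u) ∨ (∃ i, ζ i = v)) :
    Frame I (Fintype.card (Fin ν → Bool)) (Fintype.card (Fin ν → Fin k)) where
  cl := fun u => Fintype.equivFin (Fin ν → Bool) (fun i => decide (I.A u (ζ i) = 1))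
  κ := fun x => Fintype.equivFin (Fin ν → Fin k)
    (fun i => ⟨(I.c x (φ0 (ζ i))).toNat, by have := I.c_range x (φ0 (ζ i)); omega⟩)
  W0 := ∅
  Inv := fun P φ => (∀ i, ζ i ∈ P ∧ φ (ζ i) = φ0 (ζ i)) ∧
    wtOn I P φ ≡ γ * ∑ u ∈ P, ∑ v ∈ P, I.A u v [ZMOD (2 * k : ℕ)]
  step := by
    rintro P Y φ φ' hdisj hY hcl hκ hag _ _ ⟨hζ, hinv⟩
    have hYζ : ∀ y ∈ Y, ∀ i, ζ i ≠ y := by
      intro y hy i h
      exact Finset.disjoint_left.mp hdisj (hζ i).1 (h ▸ hy)
    have hYA : ∀ y ∈ Y, ∀ v, (∀ i, ζ i ≠ v) → I.A y v = 0 := by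
      intro y hy v hv
      by_contra hne
      rcases hcov y v hne with ⟨i, hi⟩ | ⟨i, hi⟩
      · exact hYζ y hy i hi
      · exact hv i hi
    have hA3 : ∀ p, ∀ y ∈ Y, ∀ y' ∈ Y, I.A y p = I.A y' p := by
      intro p y hy y' hy'
      by_cases hp : ∃ i, ζ i = p
      · obtain ⟨i, rfl⟩ := hp
        have h1 := (Fintype.equivFin (Fin ν → Bool)).injective (hcl y hy y' hy')
        have h2 := congrFun h1 i
        simp only [decide_eq_decide] at h2
        have r1 := I.A_range y (ζ i)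
        have r2 := I.A_range y' (ζ i)
        by_cases h3 : I.A y (ζ i) = 1
        · rw [h3, h2.mp h3]
        · have h4 : ¬ I.A y' (ζ i) = 1 := fun h => h3 (h2.mpr h)
          omega
      · push Not at hp
        rw [hYA y hy p hp, hYA y' hy' p hp]
    have hA4 : ∀ a ∈ Y, ∀ b ∈ Y, I.A a b = 0 := fun a ha b hb => hYA a ha b (hYζ b hb)
    refine ⟨fun i => ⟨Finset.mem_union_left _ (hζ i).1, by rw [hag _ (hζ i).1]; exact (hζ i).2⟩,
      ?_⟩
    apply inv_step I k γ P Y φ φ' hdisj hY hag _ _ (fun p _ y hy y' hy' => hA3 p y hy y' hy')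
      (fun a ha b hb c hc e he _ _ => by rw [hA4 a ha b hb, hA4 c hc e he]) hinv
    · intro p hp y hy y' hy'
      by_cases hpz : ∃ i, ζ i = p
      · obtain ⟨i, rfl⟩ := hpz
        have h1 := (Fintype.equivFin (Fin ν → Fin k)).injective (hκ y hy y' hy')
        have h2 := congrFun h1 i
        simp only [Fin.mk.injEq] at h2
        have r1 := I.c_range (φ' y) (φ0 (ζ i))
        have r2 := I.c_range (φ' y') (φ0 (ζ i))
        have h3 : I.c (φ' y) (φ0 (ζ i)) = I.c (φ' y') (φ0 (ζ i)) := by omega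
        rw [hag _ hp, (hζ i).2, h3, hA3 (ζ i) y hy y' hy']
      · push Not at hpz
        rw [hYA y hy p hpz, hYA y' hy' p hpz]; simp
    · intro a ha b hb c hc e he _ _
      rw [hA4 a ha b hb, hA4 c hc e he]; simp

lemma solved_of_n_zero (I : Inst k) (h : I.n = 0) : I.Solved := by
  have he : IsEmpty (Fin I.n) := by rw [h]; infer_instance
  refine ⟨fun u => he.elim u, fun u => he.elim u, ?_⟩
  have : wt I.A I.c (fun u => he.elim u) = 0 := by
    unfold wt
    apply Finset.sum_eq_zero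
    intro u _; exact he.elim u
  rw [this]; exact dvd_zero _

lemma caseV (k ν : ℕ) (hk : 0 < k) : ∃ c0 : ℕ, ∀ I : Inst k, I.n + c0 ≤ I.N →
    (∃ Z : Finset (Fin I.n), Z.card ≤ ν ∧ ∀ u v, I.A u v ≠ 0 → u ∈ Z ∨ v ∈ Z) → I.Solved := by
  classical
  obtain ⟨M, hM⟩ := exists_mono k (ν + Fintype.card (Fin ν → Bool) * (2 * k)) hk
  refine ⟨M + Fintype.card (Fin ν → Fin k) * (2 * k), fun I hI => ?_⟩
  rintro ⟨Z, hZ, hcov⟩
  rcases Nat.eq_zero_or_pos I.n with hn | hn
  · exact solved_of_n_zero I hn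
  let v0 : Fin I.n := ⟨0, hn⟩
  let x0 : Fin I.N := ⟨0, by omega⟩
  let ζ : Fin ν → Fin I.n := fun i =>
    if h : i.1 < Z.card then (Z.equivFin.symm ⟨i.1, h⟩).1 else v0
  have hζ : ∀ v ∈ Z, ∃ i, ζ i = v := by
    intro v hv
    have hlt := (Z.equivFin ⟨v, hv⟩).2
    refine ⟨⟨(Z.equivFin ⟨v, hv⟩).1, lt_of_lt_of_le hlt hZ⟩, ?_⟩
    simp only [ζ]
    rw [dif_pos hlt]
    simp
  have hcov' : ∀ u v, I.A u v ≠ 0 → (∃ i, ζ i = u) ∨ (∃ i, ζ i = v) := by
    intro u v h
    rcases hcov u v h with h | h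
    · exact Or.inl (hζ u h)
    · exact Or.inr (hζ v h)
  obtain ⟨Q, γ, hQ, hγ⟩ := hM I (by omega)
  let cl : Fin I.n → Fin (Fintype.card (Fin ν → Bool)) := fun u =>
    Fintype.equivFin (Fin ν → Bool) (fun i => decide (I.A u (ζ i) = 1))
  obtain ⟨P, hZP, hPc, hPres⟩ := exists_residual (2 * k) (by omega) cl (univ.image ζ)
  have hP : P.card ≤ ν + Fintype.card (Fin ν → Bool) * (2 * k) := by
    refine hPc.trans (Nat.add_le_add_right ?_ _)
    refine Finset.card_image_le.trans ?_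
    simp
  obtain ⟨φ0, hinj, hφ0⟩ := exists_place Q hQ x0 P hP
  have hmono : ∀ u ∈ P, ∀ v ∈ P, u ≠ v → I.c (φ0 u) (φ0 v) = γ := by
    intro u hu v hv huv
    obtain ⟨i, hi⟩ := hφ0 u hu
    obtain ⟨j, hj⟩ := hφ0 v hv
    rw [hi, hj]
    apply hγ
    rintro rfl
    exact huv (hinj hu hv (hi.trans hj.symm))
  have hst : St (frameV I ζ φ0 γ hcov') P φ0 ∅ := by
    refine ⟨hinj, fun u _ => Finset.notMem_empty _, Finset.empty_subset _, hPres, ?_, ?_⟩
    · intro i
      exact ⟨hZP (Finset.mem_image_of_mem _ (Finset.mem_univ _)), rfl⟩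
    · have : wtOn I P φ0 = γ * ∑ u ∈ P, ∑ v ∈ P, I.A u v := by
        unfold wtOn
        rw [Finset.mul_sum]
        refine Finset.sum_congr rfl fun u hu => ?_
        rw [Finset.mul_sum]
        refine Finset.sum_congr rfl fun v hv => ?_
        by_cases huv : u = v
        · subst huv; rw [I.A_diag]; ring
        · rw [hmono u hu v hv huv]; ring
      rw [this]
  obtain ⟨φ', hst', _⟩ := St.complete hk _ I.n P φ0 ∅ hst (by rw [Finset.card_empty]; omega) (by omega)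
  refine ⟨φ', fun u v huv => hst'.inj (by simp) (by simp) huv, ?_⟩
  have hinv := hst'.inv.2
  rw [wtOn_univ] at hinv
  rw [← Int.modEq_zero_iff_dvd]
  refine hinv.trans ?_
  rw [Int.modEq_zero_iff_dvd]
  exact Dvd.dvd.mul_left I.div γ

/-! ### Graphs of bounded type -/

/-- Frame for graphs of bounded type. -/
def frameI (I : Inst k) {a b ds : ℕ} (hds : ds ∣ k) (cl : Fin I.n → Fin a)
    (CA : Fin a → Fin a → ℤ) (hA : ∀ u v, u ≠ v → I.A u v = CA (cl u) (cl v))
    (κ : Fin I.N → Fin b) (C : Fin b → Fin b → ℤ)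
    (hC : ∀ x y, x ≠ y → I.c x y ≡ C (κ x) (κ y) [ZMOD ds]) (γ : ℤ) : Frame I a b where
  cl := cl
  κ := κ
  W0 := ∅
  Inv := fun P φ => wtOn I P φ ≡ γ * ∑ u ∈ P, ∑ v ∈ P, I.A u v [ZMOD (2 * ds : ℕ)]
  step := by
    intro P Y φ φ' hdisj hY hcl hκ hag hinj _ hinv
    have hne : ∀ u ∈ P ∪ Y, ∀ v ∈ P ∪ Y, u ≠ v → φ' u ≠ φ' v := by
      intro u hu v hv huv h
      exact huv (hinj (by exact_mod_cast hu) (by exact_mod_cast hv) h)
    have hneYP : ∀ y ∈ Y, ∀ p ∈ P, y ≠ p := by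
      rintro y hy p hp rfl
      exact Finset.disjoint_left.mp hdisj hp hy
    have h3 : ∀ p ∈ P, ∀ y ∈ Y, ∀ y' ∈ Y, I.A y p = I.A y' p := by
      intro p hp y hy y' hy'
      rw [hA y p (hneYP y hy p hp), hA y' p (hneYP y' hy' p hp), hcl y hy y' hy']
    have h4 : ∀ a ∈ Y, ∀ b ∈ Y, ∀ c ∈ Y, ∀ e ∈ Y, a ≠ b → c ≠ e → I.A a b = I.A c e := by
      intro a ha b hb c hc e he hab hce
      rw [hA a b hab, hA c e hce, hcl a ha c hc, hcl b hb e he]
    refine inv_step I ds γ P Y φ φ' hdisj ((Nat.mul_dvd_mul_left 2 hds).trans hY) hag ?_ ?_ h3 h4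
      hinv
    · intro p hp y hy y' hy'
      rw [h3 p hp y hy y' hy']
      apply Int.ModEq.mul_left
      have e1 := hC _ _ (hne y (mem_union_right _ hy) p (mem_union_left _ hp) (hneYP y hy p hp))
      have e2 := hC _ _ (hne y' (mem_union_right _ hy') p (mem_union_left _ hp)
        (hneYP y' hy' p hp))
      rw [hκ y hy y' hy'] at e1
      exact e1.trans e2.symm
    · intro a ha b hb c hc e he hab hce
      rw [h4 a ha b hb c hc e he hab hce]
      apply Int.ModEq.mul_left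
      have e1 := hC _ _ (hne a (mem_union_right _ ha) b (mem_union_right _ hb) hab)
      have e2 := hC _ _ (hne c (mem_union_right _ hc) e (mem_union_right _ he) hce)
      rw [hκ a ha c hc, hκ b hb e he] at e1
      exact e1.trans e2.symm

/-! ### Linear frames -/

/-- Degree. -/
def dg (I : Inst k) (u : Fin I.n) : ℤ := ∑ v, I.A u v

/-- Frame based on degrees modulo `k`. -/
def frameL (I : Inst k) (hk : 0 < k) {b : ℕ} (κ : Fin I.N → Fin b) (Lg : Finset (Fin b))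
    (t0 : Fin b) : Frame I k b where
  cl := fun u => ⟨(dg I u % k).toNat, by
    have h1 := Int.emod_lt_of_pos (dg I u) (show (0 : ℤ) < k by exact_mod_cast hk)
    have h2 := Int.emod_nonneg (dg I u) (show (k : ℤ) ≠ 0 by positivity)
    omega⟩
  κ := κ
  W0 := (univ : Finset (Fin I.N)).filter (fun x => κ x ∉ Lg)
  Inv := fun P φ => ∀ t, t ≠ t0 → (k : ℤ) ∣ ∑ u ∈ P.filter (fun u => κ (φ u) = t), dg I u
  step := by
    intro P Y φ φ' hdisj hY hcl hκ hag _ _ hinv t ht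
    rw [Finset.filter_union, Finset.sum_union]
    · apply dvd_add
      · have : P.filter (fun u => κ (φ' u) = t) = P.filter (fun u => κ (φ u) = t) := by
          apply Finset.filter_congr
          intro u hu
          rw [hag u hu]
        rw [this]; exact hinv t ht
      · by_cases hex : ∃ y ∈ Y, κ (φ' y) = t
        · obtain ⟨y0, hy0, hy0t⟩ := hex
          have e1 : Y.filter (fun u => κ (φ' u) = t) = Y := by
            apply Finset.filter_true_of_mem
            intro u hu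
            rw [hκ u hu y0 hy0, hy0t]
          rw [e1]
          have hmod : ∀ u ∈ Y, dg I u ≡ dg I y0 [ZMOD k] := by
            intro u hu
            have h1 := hcl u hu y0 hy0
            simp only [Fin.mk.injEq] at h1
            have h2 := Int.emod_nonneg (dg I u) (show (k : ℤ) ≠ 0 by positivity)
            have h3 := Int.emod_nonneg (dg I y0) (show (k : ℤ) ≠ 0 by positivity)
            have h4 : dg I u % k = dg I y0 % k := by omega
            exact h4
          have h5 : ∑ u ∈ Y, dg I u ≡ ∑ _u ∈ Y, dg I y0 [ZMOD k] := Int.ModEq.sum hmod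
          rw [← Int.modEq_zero_iff_dvd]
          refine h5.trans ?_
          rw [Finset.sum_const, nsmul_eq_mul, Int.modEq_zero_iff_dvd]
          apply Dvd.dvd.mul_right
          have : ((2 * k : ℕ) : ℤ) ∣ (Y.card : ℤ) := by exact_mod_cast hY
          exact (Dvd.intro_left 2 (by push_cast; ring)).trans this
        · push Not at hex
          have : Y.filter (fun u => κ (φ' u) = t) = ∅ :=
            Finset.filter_false_of_mem (fun u hu => hex u hu)
          rw [this]; simp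
    · exact Finset.disjoint_filter_filter hdisj

lemma frameL_final (I : Inst k) (hk : 0 < k) {b : ℕ} (κ : Fin I.N → Fin b)
    (Lg : Finset (Fin b)) (t0 : Fin b) (d ds : ℕ) (hd : d ∣ ds) (hds : ds ∣ k)
    (C : Fin b → Fin b → ℤ) (hCs : ∀ s t, C s t = C t s)
    (hC : ∀ x y, x ≠ y → I.c x y ≡ C (κ x) (κ y) [ZMOD ds])
    (hlin : ∀ s ∈ Lg, ∀ t ∈ Lg, (d : ℤ) ∣ C s t - C s t0 - C t0 t + C t0 t0)
    (φ : Fin I.n → Fin I.N) (W : Finset (Fin I.N)) (hst : St (frameL I hk κ Lg t0) univ φ W) :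
    ((2 * d : ℕ) : ℤ) ∣ wt I.A I.c φ := by
  classical
  have hLg : ∀ u, κ (φ u) ∈ Lg := by
    intro u
    by_contra h
    apply hst.avoid u (mem_univ _)
    apply hst.w0
    simp only [frameL, mem_filter, mem_univ, true_and]
    exact h
  have hinj : Function.Injective φ := fun u v huv => hst.inj (by simp) (by simp) huv
  have hdk : d ∣ k := hd.trans hds
  -- replace the colouring by its linear version
  set h : Fin b → ℤ := fun s => C s t0 with hh
  set τ := C t0 t0 with hτ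
  have e1 := even_sum d (fun u v => I.A u v * (I.c (φ u) (φ v) - (h (κ (φ u)) + h (κ (φ v)) - τ)))
    (fun u v => by rw [I.A_symm u v, I.c_symm (φ u) (φ v)]; ring)
    (fun u => by rw [I.A_diag]; ring) univ (fun u _ v _ huv => by
      apply Dvd.dvd.mul_left
      have h1 := (hC (φ u) (φ v) (fun h => huv (hinj h)))
      have h2 : (d : ℤ) ∣ I.c (φ u) (φ v) - C (κ (φ u)) (κ (φ v)) :=
        (show (d : ℤ) ∣ (ds : ℤ) by exact_mod_cast hd).trans h1.symm.dvd
      have h3 := hlin _ (hLg u) _ (hLg v)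
      rw [hCs t0 (κ (φ v))] at h3
      have h4 := dvd_add h2 h3
      have h5 : I.c (φ u) (φ v) - C (κ (φ u)) (κ (φ v)) + (C (κ (φ u)) (κ (φ v)) -
        C (κ (φ u)) t0 - C (κ (φ v)) t0 + C t0 t0) = I.c (φ u) (φ v) -
        (h (κ (φ u)) + h (κ (φ v)) - τ) := by simp only [hh, hτ]; ring
      rw [h5] at h4
      exact h4)
  have e2 : wt I.A I.c φ = ∑ u, ∑ v, I.A u v * (I.c (φ u) (φ v) -
      (h (κ (φ u)) + h (κ (φ v)) - τ)) + (2 * ∑ u, dg I u * h (κ (φ u)) -
      τ * ∑ u, ∑ v, I.A u v) := by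
    have e3 : ∑ u, ∑ v, I.A u v * h (κ (φ v)) = ∑ u, dg I u * h (κ (φ u)) := by
      rw [Finset.sum_comm]
      refine Finset.sum_congr rfl fun v _ => ?_
      rw [dg, Finset.sum_mul]
      refine Finset.sum_congr rfl fun u _ => ?_
      rw [I.A_symm u v]
    have e4 : ∑ u, ∑ v, I.A u v * h (κ (φ u)) = ∑ u, dg I u * h (κ (φ u)) := by
      refine Finset.sum_congr rfl fun u _ => ?_
      rw [dg, Finset.sum_mul]
    have e5 : ∀ u v, I.A u v * (I.c (φ u) (φ v) - (h (κ (φ u)) + h (κ (φ v)) - τ)) =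
        I.A u v * I.c (φ u) (φ v) - I.A u v * h (κ (φ u)) - I.A u v * h (κ (φ v)) +
        τ * I.A u v := by intro u v; ring
    simp only [e5, Finset.sum_add_distrib, Finset.sum_sub_distrib, e3, e4, ← Finset.mul_sum]
    unfold wt
    ring
  rw [e2]
  apply dvd_add e1
  -- the linear part
  have h2dk : ((2 * d : ℕ) : ℤ) ∣ ((2 * k : ℕ) : ℤ) := by
    exact_mod_cast Nat.mul_dvd_mul_left 2 hdk
  apply dvd_sub
  · have e6 : ∑ u, dg I u * h (κ (φ u)) = ∑ t, h t * ∑ u ∈ univ.filter (fun u => κ (φ u) = t),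
        dg I u := by
      rw [← Finset.sum_fiberwise_of_maps_to (s := (univ : Finset (Fin I.n))) (t := univ)
        (g := fun u => κ (φ u)) (fun _ _ => mem_univ _)]
      refine Finset.sum_congr rfl fun t _ => ?_
      rw [Finset.mul_sum]
      refine Finset.sum_congr rfl fun u hu => ?_
      rw [Finset.mem_filter] at hu
      rw [hu.2]; ring
    have e7 : (k : ℤ) ∣ ∑ u, dg I u := by
      have : ∑ u, dg I u = ∑ u, ∑ v, I.A u v := rfl
      rw [this]
      exact (Dvd.intro_left 2 (by push_cast; ring)).trans I.div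
    have e8 : ∑ t, ∑ u ∈ univ.filter (fun u => κ (φ u) = t), dg I u = ∑ u, dg I u := by
      rw [Finset.sum_fiberwise_of_maps_to (s := (univ : Finset (Fin I.n))) (t := univ)
        (g := fun u => κ (φ u)) (fun _ _ => mem_univ _)]
    have e9 : (k : ℤ) ∣ ∑ u ∈ univ.filter (fun u => κ (φ u) = t0), dg I u := by
      rw [← e8, ← Finset.add_sum_erase univ _ (mem_univ t0)] at e7
      refine (dvd_add_left ?_).mp e7
      apply Finset.dvd_sum
      intro t ht
      exact hst.inv t (Finset.ne_of_mem_erase ht)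
    have e10 : (k : ℤ) ∣ ∑ u, dg I u * h (κ (φ u)) := by
      rw [e6]
      apply Finset.dvd_sum
      intro t _
      apply Dvd.dvd.mul_left
      by_cases ht : t = t0
      · rw [ht]; exact e9
      · exact hst.inv t ht
    refine h2dk.trans ?_
    push_cast
    exact mul_dvd_mul_left 2 e10
  · exact Dvd.dvd.mul_left (h2dk.trans I.div) τ

end Pool.Agent.Lib.MP_ab035a_co
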