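import Pool.Agent.Lib.MP_ab035a_co.Lift

/-!
# Frames: partial placements, groups, completion, and the two lifting stages
-/

set_option autoImplicit false

namespace Pool.Agent.Lib.MP_ab035a_co

open Finset

/-- An instance: a graph (0/1 matrix) on `n` vertices whose number of edges is divisible by `k`,
and an edge colouring with integer colours on `N` vertices. -/
structure Inst (k : ℕ) where
  n : ℕ
  N : ℕ
  A : Fin n → Fin n → ℤ
  c : Fin N → Fin N → ℤ
  A_symm : ∀ u v, A u v = A v u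
  A_diag : ∀ u, A u u = 0
  A_range : ∀ u v, 0 ≤ A u v ∧ A u v < 2
  c_symm : ∀ x y, c x y = c y x
  c_range : ∀ x y, 0 ≤ c x y ∧ c x y < k
  div : ((2 * k : ℕ) : ℤ) ∣ ∑ u, ∑ v, A u v

/-- The instance has a zero-sum placement. -/
def Inst.Solved {k : ℕ} (I : Inst k) : Prop :=
  ∃ φ : Fin I.n → Fin I.N, Function.Injective φ ∧ ((2 * k : ℕ) : ℤ) ∣ wt I.A I.c φ

/-- Classes on both sides, reserved points, and an invariant of partial placements that is
preserved when a group of vertices is added. -/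
structure Frame {k : ℕ} (I : Inst k) (a b : ℕ) where
  cl : Fin I.n → Fin a
  κ : Fin I.N → Fin b
  W0 : Finset (Fin I.N)
  Inv : Finset (Fin I.n) → (Fin I.n → Fin I.N) → Prop
  step : ∀ (P Y : Finset (Fin I.n)) (φ φ' : Fin I.n → Fin I.N), Disjoint P Y → 2 * k ∣ Y.card → (∀ u ∈ Y, ∀ v ∈ Y, cl u = cl v) →
    (∀ u ∈ Y, ∀ v ∈ Y, κ (φ' u) = κ (φ' v)) → (∀ u ∈ P, φ' u = φ u) →
    Set.InjOn φ' ((P ∪ Y : Finset (Fin I.n)) : Set (Fin I.n)) → (∀ u ∈ Y, φ' u ∉ W0) →
    Inv P φ → Inv (P ∪ Y) φ'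

variable {k : ℕ} {I : Inst k} {a b : ℕ}

/-- Admissible partial placement. -/
structure St (F : Frame I a b) (P : Finset (Fin I.n)) (φ : Fin I.n → Fin I.N)
    (W : Finset (Fin I.N)) : Prop where
  inj : Set.InjOn φ (↑P : Set (Fin I.n))
  avoid : ∀ u ∈ P, φ u ∉ W
  w0 : F.W0 ⊆ W
  res : ∀ s, 2 * k ∣ ((univ : Finset (Fin I.n)).filter (fun v => v ∉ P ∧ F.cl v = s)).card
  inv : F.Inv P φ

lemma St.addRes {F : Frame I a b} {P : Finset (Fin I.n)} {φ : Fin I.n → Fin I.N}
    {W : Finset (Fin I.N)} (h : St F P φ W) (T : Finset (Fin I.N)) (hT : ∀ u ∈ P, φ u ∉ T) :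
    St F P φ (W ∪ T) where
  inj := h.inj
  avoid := fun u hu => by
    rw [Finset.mem_union]; rintro (h' | h')
    · exact h.avoid u hu h'
    · exact hT u hu h'
  w0 := h.w0.trans Finset.subset_union_left
  res := h.res
  inv := h.inv

lemma St.addGroup {F : Frame I a b} {P : Finset (Fin I.n)} {φ : Fin I.n → Fin I.N}
    {W : Finset (Fin I.N)} (h : St F P φ W) {m : ℕ} (hm : 2 * k ∣ m) (e : Fin m → Fin I.n)
    (he : Function.Injective e) (heP : ∀ i, e i ∉ P) (hcl : ∀ i j, F.cl (e i) = F.cl (e j))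
    (y : Fin m → Fin I.N) (hy : Function.Injective y) (hyW : ∀ i, y i ∉ W)
    (hyP : ∀ i, ∀ u ∈ P, φ u ≠ y i) (hκ : ∀ i j, F.κ (y i) = F.κ (y j)) :
    St F (P ∪ univ.image e) (Function.extend e y φ) W := by
  have hP : ∀ u ∈ P, Function.extend e y φ u = φ u := fun u hu => by
    apply Function.extend_apply'
    rintro ⟨i, rfl⟩; exact heP i hu
  have hE : ∀ i, Function.extend e y φ (e i) = y i := fun i => he.extend_apply _ _ _
  have hinj : Set.InjOn (Function.extend e y φ) (↑(P ∪ univ.image e) : Set (Fin I.n)) := by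
    intro u hu v hv huv
    simp only [coe_union, Set.mem_union, mem_coe, coe_image, coe_univ, Set.image_univ,
      Set.mem_range] at hu hv
    rcases hu with hu | ⟨i, rfl⟩ <;> rcases hv with hv | ⟨j, rfl⟩
    · rw [hP u hu, hP v hv] at huv; exact h.inj hu hv huv
    · rw [hP u hu, hE] at huv; exact absurd huv (hyP j u hu)
    · rw [hP v hv, hE] at huv; exact absurd huv.symm (hyP i v hv)
    · rw [hE, hE] at huv; rw [hy huv]
  refine ⟨hinj, ?_, h.w0, ?_, ?_⟩
  · intro u hu
    rw [Finset.mem_union, Finset.mem_image] at hu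
    rcases hu with hu | ⟨i, _, rfl⟩
    · rw [hP u hu]; exact h.avoid u hu
    · rw [hE]; exact hyW i
  · intro s
    have hsplit : (univ : Finset (Fin I.n)).filter (fun v => v ∉ P ∧ F.cl v = s) =
        (univ : Finset (Fin I.n)).filter (fun v => v ∉ P ∪ univ.image e ∧ F.cl v = s) ∪
        (univ.image e).filter (fun v => F.cl v = s) := by
      ext v
      simp only [mem_filter, mem_univ, true_and, mem_union, mem_image]
      constructor
      · rintro ⟨h1, h2⟩
        by_cases hv : ∃ i, e i = v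
        · right; exact ⟨hv, h2⟩
        · left
          refine ⟨?_, h2⟩
          rintro (h3 | h3)
          · exact h1 h3
          · exact hv h3
      · rintro (⟨h1, h2⟩ | ⟨⟨i, rfl⟩, h2⟩)
        · exact ⟨fun h3 => h1 (Or.inl h3), h2⟩
        · exact ⟨heP i, h2⟩
    have hdisj : Disjoint
        ((univ : Finset (Fin I.n)).filter (fun v => v ∉ P ∪ univ.image e ∧ F.cl v = s))
        ((univ.image e).filter (fun v => F.cl v = s)) := by
      rw [Finset.disjoint_left]
      intro v hv hv'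
      rw [Finset.mem_filter] at hv hv'
      exact hv.2.1 (Finset.mem_union_right _ hv'.1)
    have hdvd2 : 2 * k ∣ ((univ.image e).filter (fun v => F.cl v = s)).card := by
      by_cases hex : ∃ i, F.cl (e i) = s
      · obtain ⟨i, hi⟩ := hex
        have : (univ.image e).filter (fun v => F.cl v = s) = univ.image e := by
          apply Finset.filter_true_of_mem
          intro v hv
          rw [Finset.mem_image] at hv
          obtain ⟨j, _, rfl⟩ := hv
          rw [hcl j i, hi]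
        rw [this, Finset.card_image_of_injective _ he, Finset.card_univ, Fintype.card_fin]
        exact hm
      · have : (univ.image e).filter (fun v => F.cl v = s) = ∅ := by
          apply Finset.filter_false_of_mem
          intro v hv
          rw [Finset.mem_image] at hv
          obtain ⟨j, _, rfl⟩ := hv
          exact fun h' => hex ⟨j, h'⟩
        rw [this]; simp
    have hall := h.res s
    rw [hsplit, Finset.card_union_of_disjoint hdisj] at hall
    exact (Nat.dvd_add_left hdvd2).mp hall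
  · apply F.step P (univ.image e) φ _ _ _ _ _ hP hinj _ h.inv
    · rw [Finset.disjoint_right]
      intro v hv
      rw [Finset.mem_image] at hv
      obtain ⟨j, _, rfl⟩ := hv
      exact heP j
    · rw [Finset.card_image_of_injective _ he, Finset.card_univ, Fintype.card_fin]
      exact hm
    · intro u hu v hv
      rw [Finset.mem_image] at hu hv
      obtain ⟨i, _, rfl⟩ := hu
      obtain ⟨j, _, rfl⟩ := hv
      exact hcl i j
    · intro u hu v hv
      rw [Finset.mem_image] at hu hv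
      obtain ⟨i, _, rfl⟩ := hu
      obtain ⟨j, _, rfl⟩ := hv
      rw [hE, hE]; exact hκ i j
    · intro u hu
      rw [Finset.mem_image] at hu
      obtain ⟨i, _, rfl⟩ := hu
      rw [hE]; exact fun h' => hyW i (h.w0 h')

/-- Completion of a partial placement by groups. -/
lemma St.complete (hk : 0 < k) (F : Frame I a b) (q : ℕ) :
    ∀ (P : Finset (Fin I.n)) (φ : Fin I.n → Fin I.N) (W : Finset (Fin I.N)), St F P φ W →
      I.n + W.card + b * (2 * k) ≤ I.N → I.n - P.card ≤ q →
      ∃ φ' : Fin I.n → Fin I.N, St F univ φ' W ∧ ∀ u ∈ P, φ' u = φ u := by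
  classical
  induction q with
  | zero =>
    intro P φ W h _ hq
    have hP : P = univ := by
      apply Finset.eq_univ_of_card
      have := Finset.card_le_univ P
      rw [Fintype.card_fin] at this ⊢
      omega
    subst hP
    exact ⟨φ, h, fun _ _ => rfl⟩
  | succ q ih =>
    intro P φ W h hN hq
    by_cases hP : P = univ
    · subst hP; exact ⟨φ, h, fun _ _ => rfl⟩
    obtain ⟨v, hv⟩ : ∃ v, v ∉ P := by
      by_contra hcon
      push Not at hcon
      exact hP (Finset.eq_univ_iff_forall.mpr hcon)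
    have hPcard : P.card < I.n := by
      have : P.card < (univ : Finset (Fin I.n)).card :=
        Finset.card_lt_card (Finset.ssubset_univ_iff.mpr hP)
      simpa using this
    -- a group of vertices
    set S := (univ : Finset (Fin I.n)).filter (fun u => u ∉ P ∧ F.cl u = F.cl v) with hS
    have hSpos : 0 < S.card := Finset.card_pos.mpr ⟨v, by rw [hS, Finset.mem_filter]; exact
      ⟨mem_univ _, hv, rfl⟩⟩
    have hS2 : 2 * k ≤ S.card := Nat.le_of_dvd hSpos (h.res _)
    obtain ⟨Y, hY, hYc⟩ := Finset.exists_subset_card_eq hS2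
    -- free points
    set Fr := (univ : Finset (Fin I.N)) \ (P.image φ ∪ W) with hFr
    have hFrc : I.N ≤ Fr.card + P.card + W.card := by
      have h1 : Fr.card + (P.image φ ∪ W).card =
          (univ : Finset (Fin I.N)).card := by
        rw [hFr, Finset.card_sdiff_add_card_eq_card (Finset.subset_univ _)]
      rw [Finset.card_univ, Fintype.card_fin] at h1
      have h2 := Finset.card_union_le (P.image φ) W
      have h3 : (P.image φ).card ≤ P.card := Finset.card_image_le
      omega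
    have : Nonempty (Fin b) := by
      have : 0 < I.N := by omega
      exact ⟨F.κ ⟨0, this⟩⟩
    obtain ⟨s, hs⟩ : ∃ s, 2 * k ≤ (Fr.filter (fun x => F.κ x = s)).card := by
      obtain ⟨s, hs⟩ := exists_color_class Fr F.κ (2 * k) (by
        rw [Fintype.card_fin]; omega)
      exact ⟨s, by convert hs⟩
    obtain ⟨Y', hY', hYc'⟩ := Finset.exists_subset_card_eq hs
    let e : Fin (2 * k) → Fin I.n := Y.orderEmbOfFin hYc
    let y : Fin (2 * k) → Fin I.N := Y'.orderEmbOfFin hYc'
    have he : ∀ i, e i ∈ S := fun i => hY (Finset.orderEmbOfFin_mem Y hYc i)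
    have hy : ∀ i, y i ∈ Fr ∧ F.κ (y i) = s := fun i => by
      have := hY' (Finset.orderEmbOfFin_mem Y' hYc' i)
      rw [Finset.mem_filter] at this
      exact this
    have heS : ∀ i, e i ∉ P ∧ F.cl (e i) = F.cl v := fun i => by
      have := he i
      rw [hS, Finset.mem_filter] at this
      exact this.2
    have hyFr : ∀ i, (∀ u ∈ P, φ u ≠ y i) ∧ y i ∉ W := fun i => by
      have := (hy i).1
      rw [hFr, Finset.mem_sdiff, Finset.mem_union, Finset.mem_image] at this
      push Not at this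
      exact ⟨fun u hu => this.2.1 u hu, this.2.2⟩
    have hinj_e : Function.Injective e := (Y.orderEmbOfFin hYc).injective
    have hst := h.addGroup (m := 2 * k) dvd_rfl e hinj_e (fun i => (heS i).1)
      (fun i j => by rw [(heS i).2, (heS j).2]) y (Y'.orderEmbOfFin hYc').injective
      (fun i => (hyFr i).2) (fun i => (hyFr i).1) (fun i j => by rw [(hy i).2, (hy j).2])
    have hcard' : (P ∪ univ.image e).card = P.card + 2 * k := by
      rw [Finset.card_union_of_disjoint, Finset.card_image_of_injective _ hinj_e,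
        Finset.card_univ, Fintype.card_fin]
      rw [Finset.disjoint_right]
      intro u hu
      rw [Finset.mem_image] at hu
      obtain ⟨i, _, rfl⟩ := hu
      exact (heS i).1
    obtain ⟨φ', hφ', hag⟩ := ih _ _ _ hst hN (by omega)
    refine ⟨φ', hφ', fun u hu => ?_⟩
    rw [hag u (Finset.mem_union_left _ hu)]
    apply Function.extend_apply'
    rintro ⟨i, rfl⟩; exact (heS i).1 hu

/-- Solvability modulo `2 d` of all admissible partial placements of size at most `w`. -/
def Sol (F : Frame I a b) (d w : ℕ) : Prop :=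
  ∀ (P : Finset (Fin I.n)) (φ : Fin I.n → Fin I.N) (W : Finset (Fin I.N)), St F P φ W →
    P.card ≤ w → W.card ≤ w → ∃ φ' : Fin I.n → Fin I.N, Function.Injective φ' ∧
      (∀ u ∈ P, φ' u = φ u) ∧ (∀ u, φ' u ∉ W) ∧ ((2 * d : ℕ) : ℤ) ∣ wt I.A I.c φ'

/-- Base case: if complete admissible placements have weight divisible by `2 d`. -/
lemma sol_base (hk : 0 < k) (F : Frame I a b) (d w : ℕ) (hN : I.n + w + b * (2 * k) ≤ I.N)
    (hfin : ∀ φ W, St F univ φ W → ((2 * d : ℕ) : ℤ) ∣ wt I.A I.c φ) : Sol F d w := by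
  intro P φ W h hP hW
  obtain ⟨φ', hst, hag⟩ := St.complete hk F I.n P φ W h (by omega) (by omega)
  refine ⟨φ', ?_, hag, fun u => hst.avoid u (mem_univ _), hfin φ' W hst⟩
  intro u v huv
  exact hst.inj (by simp) (by simp) huv

/-- Stage 1: gadgets in the colouring. -/
lemma sol_stage1 (hk : 0 < k) (F : Frame I a b) (d ds w m : ℕ) (hdk : d ∣ k) (hds : ds ∣ d)
    (hm : 16 * k ^ 3 ≤ m) (hm2 : 2 * k ∣ m)
    (C : Fin b → Fin b → ℤ)
    (hC : ∀ x y, x ≠ y → I.c x y ≡ C (F.κ x) (F.κ y) [ZMOD ds])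
    (hgad : ∀ R : Finset (Fin I.N), R.card ≤ 2 * w →
      ∃ (z : Fin m → Fin 4 → Fin I.N) (δ : ℤ), ¬ (d : ℤ) ∣ δ ∧ GadgetFam I.c z δ ∧
        (∀ g g', F.κ (z g 0) = F.κ (z g' 0) ∧ F.κ (z g 1) = F.κ (z g' 0)) ∧
        (∀ g g', F.κ (z g 2) = F.κ (z g' 2) ∧ F.κ (z g 3) = F.κ (z g' 2)) ∧
        (∀ g i, z g i ∉ R))
    (hmat : ∀ P : Finset (Fin I.n), P.card ≤ w → ∃ u v : Fin m → Fin I.n,
      Function.Injective u ∧ Function.Injective v ∧ (∀ g g', u g ≠ v g') ∧
      (∀ g, I.A (u g) (v g) = 1) ∧ (∀ g, u g ∉ P ∧ v g ∉ P) ∧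
      (∀ g g', F.cl (u g) = F.cl (u g')) ∧ (∀ g g', F.cl (v g) = F.cl (v g')))
    (hsol : ∀ d', ds ∣ d' → d' ∣ d → d' ≠ d → Sol F d' (w + 2 * m)) :
    Sol F d w := by
  classical
  intro P φ W hst hP hW
  have hd0 : 0 < d := Nat.pos_of_dvd_of_pos hdk hk
  obtain ⟨z, δ, hδd, hz, hκ0, hκ2, hzR⟩ := hgad (P.image φ ∪ W) (by
    have h1 := Finset.card_union_le (P.image φ) W
    have h2 : (P.image φ).card ≤ P.card := Finset.card_image_le
    omega)
  obtain ⟨u, v, hu, hv, huv, hA1, hP', hcu, hcv⟩ := hmat P hP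
  have hzW : ∀ g i, z g i ∉ W := fun g i h => hzR g i (Finset.mem_union_right _ h)
  have hzP : ∀ g i, ∀ p ∈ P, φ p ≠ z g i := fun g i p hp h =>
    hzR g i (Finset.mem_union_left _ (Finset.mem_image.mpr ⟨p, hp, h⟩))
  have hzne : ∀ g g' i i', i ≠ i' → z g i ≠ z g' i' := fun g g' i i' h h' =>
    h (hz.inj _ _ _ _ h').2
  have hzinj : ∀ i, Function.Injective (fun g => z g i) := fun i g g' h => (hz.inj _ _ _ _ h).1
  -- first group
  have st1 := hst.addGroup hm2 u hu (fun g => (hP' g).1) hcu (fun g => z g 0) (hzinj 0)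
    (fun g => hzW g 0) (fun g => hzP g 0) (fun g g' => (hκ0 g g').1)
  set φ1 := Function.extend u (fun g => z g 0) φ with hφ1
  have hφ1P : ∀ p ∈ P, φ1 p = φ p := fun p hp => by
    apply Function.extend_apply'
    rintro ⟨i, rfl⟩; exact (hP' i).1 hp
  have hφ1u : ∀ g, φ1 (u g) = z g 0 := fun g => hu.extend_apply _ _ _
  -- second group
  have st2 := st1.addGroup hm2 v hv (fun g h => by
      rw [Finset.mem_union, Finset.mem_image] at h
      rcases h with h | ⟨i, _, h⟩
      · exact (hP' g).2 h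
      · exact huv _ _ h) hcv (fun g => z g 2) (hzinj 2)
    (fun g => hzW g 2) (fun g p hp => by
      rw [Finset.mem_union, Finset.mem_image] at hp
      rcases hp with hp | ⟨i, _, rfl⟩
      · rw [hφ1P p hp]; exact hzP g 2 p hp
      · rw [hφ1u]; exact hzne _ _ _ _ (by decide)) (fun g g' => (hκ2 g g').1)
  set φ2 := Function.extend v (fun g => z g 2) φ1 with hφ2
  have hφ2v : ∀ g, φ2 (v g) = z g 2 := fun g => hv.extend_apply _ _ _
  have hφ2u : ∀ g, φ2 (u g) = z g 0 := fun g => by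
    rw [hφ2, Function.extend_apply', hφ1u]
    rintro ⟨i, h⟩; exact huv _ _ h.symm
  have hφ2P : ∀ p ∈ P, φ2 p = φ p := fun p hp => by
    rw [hφ2, Function.extend_apply', hφ1P p hp]
    rintro ⟨i, rfl⟩; exact (hP' i).2 hp
  set P2 := P ∪ univ.image u ∪ univ.image v with hP2
  have hmemP2 : ∀ p ∈ P2, p ∈ P ∨ (∃ g, u g = p) ∨ (∃ g, v g = p) := by
    intro p hp
    simp only [hP2, mem_union, mem_image, mem_univ, true_and] at hp
    tauto
  -- reserved partners
  set T := univ.image (fun g => z g 1) ∪ univ.image (fun g => z g 3) with hT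
  have hmemT : ∀ x ∈ T, (∃ g, z g 1 = x) ∨ (∃ g, z g 3 = x) := by
    intro x hx
    simp only [hT, mem_union, mem_image, mem_univ, true_and] at hx
    exact hx
  have st3 := st2.addRes T (by
    intro p hp hpT
    rcases hmemP2 p hp with h | ⟨g, rfl⟩ | ⟨g, rfl⟩
    · rw [hφ2P p h] at hpT
      rcases hmemT _ hpT with ⟨g, h'⟩ | ⟨g, h'⟩
      · exact hzP _ _ p h h'.symm
      · exact hzP _ _ p h h'.symm
    · rw [hφ2u] at hpT
      rcases hmemT _ hpT with ⟨g, h'⟩ | ⟨g, h'⟩
      · exact hzne _ _ _ _ (by decide) h'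
      · exact hzne _ _ _ _ (by decide) h'
    · rw [hφ2v] at hpT
      rcases hmemT _ hpT with ⟨g, h'⟩ | ⟨g, h'⟩
      · exact hzne _ _ _ _ (by decide) h'
      · exact hzne _ _ _ _ (by decide) h')
  have cP2 : P2.card ≤ w + 2 * m := by
    have h1 : P2.card ≤ (P ∪ univ.image u).card + (univ.image v).card :=
      Finset.card_union_le (P ∪ univ.image u) (univ.image v)
    have h2 := Finset.card_union_le P (univ.image u)
    have h3 : ((univ : Finset (Fin m)).image u).card ≤ m := by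
      refine Finset.card_image_le.trans ?_; simp
    have h4 : ((univ : Finset (Fin m)).image v).card ≤ m := by
      refine Finset.card_image_le.trans ?_; simp
    omega
  have cW2 : (W ∪ T).card ≤ w + 2 * m := by
    have h1 := Finset.card_union_le W T
    have h2 : T.card ≤ ((univ : Finset (Fin m)).image (fun g => z g 1)).card +
      (univ.image (fun g => z g 3)).card := Finset.card_union_le _ _
    have h3 : ((univ : Finset (Fin m)).image (fun g => z g 1)).card ≤ m := by
      refine Finset.card_image_le.trans ?_; simp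
    have h4 : ((univ : Finset (Fin m)).image (fun g => z g 3)).card ≤ m := by
      refine Finset.card_image_le.trans ?_; simp
    omega
  -- `ds ∣ δ`
  have hdsδ : (ds : ℤ) ∣ δ := by
    have hm0 : 0 < m := lt_of_lt_of_le (by positivity) hm
    let g0 : Fin m := ⟨0, hm0⟩
    rw [← hz.main g0, dd]
    have e1 := hC (z g0 0) (z g0 2) (hzne _ _ _ _ (by decide))
    have e2 := hC (z g0 0) (z g0 3) (hzne _ _ _ _ (by decide))
    have e3 := hC (z g0 1) (z g0 2) (hzne _ _ _ _ (by decide))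
    have e4 := hC (z g0 1) (z g0 3) (hzne _ _ _ _ (by decide))
    rw [(hκ2 g0 g0).2] at e2 e4
    rw [(hκ0 g0 g0).2] at e3 e4
    have e5 := ((e1.sub e2).sub e3).add e4
    rw [← Int.modEq_zero_iff_dvd]
    refine e5.trans ?_
    rw [Int.modEq_zero_iff_dvd]
    exact ⟨0, by ring⟩
  set d' := Int.gcd (d : ℤ) δ with hd'
  have hd'd : d' ∣ d := by
    have : ((Int.gcd (d : ℤ) δ : ℕ) : ℤ) ∣ (d : ℤ) := Int.gcd_dvd_left _ _
    exact_mod_cast this
  have hd'ne : d' ≠ d := by
    intro h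
    apply hδd
    have : ((Int.gcd (d : ℤ) δ : ℕ) : ℤ) ∣ δ := Int.gcd_dvd_right _ _
    rw [← hd', h] at this
    exact this
  have hdsd' : ds ∣ d' := by
    have : (ds : ℤ) ∣ ((Int.gcd (d : ℤ) δ : ℕ) : ℤ) :=
      Int.dvd_coe_gcd (by exact_mod_cast hds) hdsδ
    exact_mod_cast this
  obtain ⟨ψ, hψinj, hψP, hψW, hψd⟩ := hsol d' hdsd' hd'd hd'ne P2 φ2 (W ∪ T) st3 cP2 cW2
  have hψu : ∀ g, ψ (u g) = z g 0 := fun g => by
    rw [hψP (u g) (by simp [hP2]), hφ2u]
  have hψv : ∀ g, ψ (v g) = z g 2 := fun g => by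
    rw [hψP (v g) (by simp [hP2]), hφ2v]
  have hψ1 : ∀ g p, ψ p ≠ z g 1 := fun g p h => by
    apply hψW p; rw [h]; simp [hT]
  have hψ3 : ∀ g p, ψ p ≠ z g 3 := fun g p h => by
    apply hψW p; rw [h]; simp [hT]
  obtain ⟨π, hπfix, hπd⟩ := lift k d m hk hdk hm I.A I.A_symm I.c I.c_symm ψ z hz.inj
    (fun g g' h => by rw [hz.c00 g g' h, mul_zero])
    (fun g g' h => by rw [hz.c01 g g' h, mul_zero])
    (fun g g' h => by rw [hz.c11 g g' h, mul_zero]) δ
    (fun g => by
      have e1 : dd (push I.A ψ) (z g 0) (z g 1) (z g 2) (z g 3) = 1 := by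
        rw [dd, push_zero_left I.A (hψ1 g), push_zero_left I.A (hψ1 g),
          push_zero_right I.A (hψ3 g), ← hψu g, ← hψv g, push_apply I.A hψinj, hA1]
        ring
      rw [e1, hz.main g, one_mul]) hψd
  refine ⟨⇑π ∘ ψ, π.injective.comp hψinj, ?_, ?_, hπd⟩
  · intro p hp
    have e1 : ψ p = φ p := by
      rw [hψP p (by simp [hP2, hp]), hφ2P p hp]
    simp only [Function.comp_apply, e1]
    apply hπfix
    intro g i
    exact hzP g i p hp
  · intro p hpW
    simp only [Function.comp_apply] at hpW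
    have hfixW : π (π (ψ p)) = π (ψ p) := by
      apply hπfix
      intro g i h
      apply hzW g i
      rw [← h]; exact hpW
    have : π (ψ p) = ψ p := π.injective hfixW
    rw [this] at hpW
    exact hψW p (Finset.mem_union_left _ hpW)

/-- Stage 2: gadgets in the graph. -/
lemma sol_stage2 (hk : 0 < k) (F : Frame I a b) (d w m : ℕ) (hdk : d ∣ k)
    (hm : 16 * k ^ 3 ≤ m) (hm2 : 2 * k ∣ m)
    (hgad : ∀ P : Finset (Fin I.n), P.card ≤ w →
      ∃ (z : Fin m → Fin 4 → Fin I.n) (δ : ℤ), (δ = 1 ∨ δ = -1) ∧ GadgetFam I.A z δ ∧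
        (∀ g g', F.cl (z g 0) = F.cl (z g' 0) ∧ F.cl (z g 1) = F.cl (z g' 0)) ∧
        (∀ g g', F.cl (z g 2) = F.cl (z g' 2) ∧ F.cl (z g 3) = F.cl (z g' 2)) ∧
        (∀ g i, z g i ∉ P))
    (D : ℤ) (hD : ¬ (d : ℤ) ∣ D)
    (hX : ∀ R : Finset (Fin I.N), R.card ≤ 2 * w → ∃ x : Fin m → Fin 4 → Fin I.N,
      (∀ g i g' i', x g i = x g' i' → g = g' ∧ i = i') ∧ (∀ g i, x g i ∉ R) ∧
      (∀ g g' i, F.κ (x g i) = F.κ (x g' i)) ∧
      (∀ g, dd I.c (x g 0) (x g 1) (x g 2) (x g 3) ≡ D [ZMOD d]))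
    (hsol : ∀ d', d' ∣ d → d' ≠ d → Sol F d' (w + 4 * m)) :
    Sol F d w := by
  classical
  intro P φ W hst hP hW
  have hd0 : 0 < d := Nat.pos_of_dvd_of_pos hdk hk
  obtain ⟨z, δA, hδA, hz, hcl0, hcl2, hzP⟩ := hgad P hP
  obtain ⟨x, hxinj, hxR, hκ, hxD⟩ := hX (P.image φ ∪ W) (by
    have h1 := Finset.card_union_le (P.image φ) W
    have h2 : (P.image φ).card ≤ P.card := Finset.card_image_le
    omega)
  have hxW : ∀ g i, x g i ∉ W := fun g i h => hxR g i (Finset.mem_union_right _ h)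
  have hxP : ∀ g i, ∀ p ∈ P, φ p ≠ x g i := fun g i p hp h =>
    hxR g i (Finset.mem_union_left _ (Finset.mem_image.mpr ⟨p, hp, h⟩))
  have hxne : ∀ g g' i i', i ≠ i' → x g i ≠ x g' i' := fun g g' i i' h h' =>
    h (hxinj _ _ _ _ h').2
  have hzne : ∀ g g' i i', i ≠ i' → z g i ≠ z g' i' := fun g g' i i' h h' =>
    h (hz.inj _ _ _ _ h').2
  have hxi : ∀ i, Function.Injective (fun g => x g i) := fun i g g' h => (hxinj _ _ _ _ h).1
  have hzi : ∀ i, Function.Injective (fun g => z g i) := fun i g g' h => (hz.inj _ _ _ _ h).1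
  have hclc : ∀ i : Fin 4, ∀ g g', F.cl (z g i) = F.cl (z g' i) := by
    intro i g g'
    fin_cases i
    · exact (hcl0 g g').1
    · exact (hcl0 g g).2.trans ((hcl0 g g').1.trans (hcl0 g' g').2.symm)
    · exact (hcl2 g g').1
    · exact (hcl2 g g).2.trans ((hcl2 g g').1.trans (hcl2 g' g').2.symm)
  -- one step of adding the group `i`
  have key : ∀ (i : Fin 4) (P' : Finset (Fin I.n)) (φ' : Fin I.n → Fin I.N),
      St F P' φ' W → P ⊆ P' → (∀ p ∈ P, φ' p = φ p) →
      (∀ p ∈ P', p ∈ P ∨ ∃ j g, j ≠ i ∧ z g j = p ∧ φ' p = x g j) →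
      (∀ g, z g i ∉ P') →
      ∃ (P'' : Finset (Fin I.n)) (φ'' : Fin I.n → Fin I.N), St F P'' φ'' W ∧ P' ⊆ P'' ∧
        P''.card ≤ P'.card + m ∧ (∀ g, z g i ∈ P'' ∧ φ'' (z g i) = x g i) ∧
        (∀ p ∈ P', φ'' p = φ' p) ∧ (∀ p ∈ P'', p ∈ P' ∨ ∃ g, z g i = p) := by
    intro i P' φ' hst' hPP' hag hmem hnot
    refine ⟨P' ∪ univ.image (fun g => z g i), Function.extend (fun g => z g i)
      (fun g => x g i) φ', ?_, Finset.subset_union_left, ?_, ?_, ?_, ?_⟩
    · apply hst'.addGroup hm2 _ (hzi i) hnot (hclc i) _ (hxi i) (fun g => hxW g i) _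
        (fun g g' => hκ g g' i)
      intro g p hp
      rcases hmem p hp with h | ⟨j, g', hj, _, h⟩
      · rw [hag p h]; exact hxP g i p h
      · rw [h]; exact hxne _ _ _ _ hj
    · have h1 := Finset.card_union_le P' (univ.image (fun g => z g i))
      have h3 : ((univ : Finset (Fin m)).image (fun g => z g i)).card ≤ m := by
        refine Finset.card_image_le.trans ?_; simp
      omega
    · intro g
      refine ⟨by simp, ?_⟩
      exact (hzi i).extend_apply _ _ g
    · intro p hp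
      apply Function.extend_apply'
      rintro ⟨g, rfl⟩; exact hnot g hp
    · intro p hp
      simp only [mem_union, mem_image, mem_univ, true_and] at hp
      exact hp
  obtain ⟨P1, φ1, st1, hs1, hc1, hg1, ha1, hm1⟩ := key 0 P φ hst (Finset.Subset.refl _)
    (fun _ _ => rfl) (fun p hp => Or.inl hp) (fun g => hzP g 0)
  obtain ⟨P2, φ2, st2, hs2, hc2, hg2, ha2, hm2'⟩ := key 1 P1 φ1 st1 hs1
    (fun p hp => ha1 p hp) (fun p hp => by
      rcases hm1 p hp with h | ⟨g, rfl⟩
      · exact Or.inl h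
      · exact Or.inr ⟨0, g, by decide, rfl, (hg1 g).2⟩) (fun g h => by
      rcases hm1 _ h with h | ⟨g', h⟩
      · exact hzP _ _ h
      · exact hzne _ _ _ _ (by decide) h)
  obtain ⟨P3, φ3, st3, hs3, hc3, hg3, ha3, hm3⟩ := key 2 P2 φ2 st2 (hs1.trans hs2)
    (fun p hp => by rw [ha2 p (hs1 hp), ha1 p hp]) (fun p hp => by
      rcases hm2' p hp with h | ⟨g, rfl⟩
      · rcases hm1 p h with h' | ⟨g, rfl⟩
        · exact Or.inl h'
        · exact Or.inr ⟨0, g, by decide, rfl, by rw [ha2 _ h, (hg1 g).2]⟩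
      · exact Or.inr ⟨1, g, by decide, rfl, (hg2 g).2⟩) (fun g h => by
      rcases hm2' _ h with h | ⟨g', h⟩
      · rcases hm1 _ h with h | ⟨g', h⟩
        · exact hzP _ _ h
        · exact hzne _ _ _ _ (by decide) h
      · exact hzne _ _ _ _ (by decide) h)
  obtain ⟨P4, φ4, st4, hs4, hc4, hg4, ha4, hm4⟩ := key 3 P3 φ3 st3 ((hs1.trans hs2).trans hs3)
    (fun p hp => by rw [ha3 p (hs2 (hs1 hp)), ha2 p (hs1 hp), ha1 p hp]) (fun p hp => by
      rcases hm3 p hp with h | ⟨g, rfl⟩
      · rcases hm2' p h with h' | ⟨g, rfl⟩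
        · rcases hm1 p h' with h'' | ⟨g, rfl⟩
          · exact Or.inl h''
          · exact Or.inr ⟨0, g, by decide, rfl, by rw [ha3 _ h, ha2 _ h', (hg1 g).2]⟩
        · exact Or.inr ⟨1, g, by decide, rfl, by rw [ha3 _ h, (hg2 g).2]⟩
      · exact Or.inr ⟨2, g, by decide, rfl, (hg3 g).2⟩) (fun g h => by
      rcases hm3 _ h with h | ⟨g', h⟩
      · rcases hm2' _ h with h | ⟨g', h⟩
        · rcases hm1 _ h with h | ⟨g', h⟩
          · exact hzP _ _ h
          · exact hzne _ _ _ _ (by decide) h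
        · exact hzne _ _ _ _ (by decide) h
      · exact hzne _ _ _ _ (by decide) h)
  set d' := Int.gcd (d : ℤ) (δA * D) with hd'
  have hd'd : d' ∣ d := by
    have : ((Int.gcd (d : ℤ) (δA * D) : ℕ) : ℤ) ∣ (d : ℤ) := Int.gcd_dvd_left _ _
    exact_mod_cast this
  have hd'ne : d' ≠ d := by
    intro h
    apply hD
    have h1 : ((Int.gcd (d : ℤ) (δA * D) : ℕ) : ℤ) ∣ δA * D := Int.gcd_dvd_right _ _
    rw [← hd', h] at h1
    rcases hδA with h2 | h2
    · rw [h2, one_mul] at h1; exact h1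
    · rw [h2, neg_one_mul, dvd_neg] at h1; exact h1
  obtain ⟨ψ, hψinj, hψP, hψW, hψd⟩ := hsol d' hd'd hd'ne P4 φ4 W st4 (by omega) (by omega)
  have hψz : ∀ g i, ψ (z g i) = x g i := by
    intro g i
    fin_cases i
    · have h1 := (hg1 g).1
      exact (hψP _ (hs4 (hs3 (hs2 h1)))).trans (by
        rw [ha4 _ (hs3 (hs2 h1)), ha3 _ (hs2 h1), ha2 _ h1]; exact (hg1 g).2)
    · have h1 := (hg2 g).1
      exact (hψP _ (hs4 (hs3 h1))).trans (by
        rw [ha4 _ (hs3 h1), ha3 _ h1]; exact (hg2 g).2)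
    · have h1 := (hg3 g).1
      exact (hψP _ (hs4 h1)).trans (by rw [ha4 _ h1]; exact (hg3 g).2)
    · exact (hψP _ (hg4 g).1).trans (hg4 g).2
  have hpush : ∀ g i g' i', push I.A ψ (x g i) (x g' i') = I.A (z g i) (z g' i') := by
    intro g i g' i'
    rw [← hψz, ← hψz, push_apply I.A hψinj]
  have hddpush : ∀ g g' i j i' j', dd (push I.A ψ) (x g i) (x g j) (x g' i') (x g' j') =
      dd I.A (z g i) (z g j) (z g' i') (z g' j') := by
    intro g g' i j i' j'
    simp only [dd, hpush]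
  obtain ⟨π, hπfix, hπd⟩ := lift k d m hk hdk hm I.A I.A_symm I.c I.c_symm ψ x hxinj
    (fun g g' h => by rw [hddpush, hz.c00 g g' h, zero_mul])
    (fun g g' h => by rw [hddpush, hz.c01 g g' h, zero_mul])
    (fun g g' h => by rw [hddpush, hz.c11 g g' h, zero_mul]) (δA * D)
    (fun g => by rw [hddpush, hz.main g]; exact Int.ModEq.mul_left δA (hxD g)) hψd
  refine ⟨⇑π ∘ ψ, π.injective.comp hψinj, ?_, ?_, hπd⟩
  · intro p hp
    have e1 : ψ p = φ p := by
      rw [hψP p (hs4 (hs3 (hs2 (hs1 hp)))), ha4 _ (hs3 (hs2 (hs1 hp))), ha3 _ (hs2 (hs1 hp)),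
        ha2 _ (hs1 hp), ha1 p hp]
    simp only [Function.comp_apply, e1]
    apply hπfix
    intro g i
    exact hxP g i p hp
  · intro p hpW
    simp only [Function.comp_apply] at hpW
    have hfixW : π (π (ψ p)) = π (ψ p) := by
      apply hπfix
      intro g i h
      apply hxW g i
      rw [← h]; exact hpW
    have : π (ψ p) = ψ p := π.injective hfixW
    rw [this] at hpW
    exact hψW p hpW

end Pool.Agent.Lib.MP_ab035a_co
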