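import Pool.Agent.Lib.MP_ab035a_co.Ramsey

/-!
# Families of gadgets
-/

set_option autoImplicit false

namespace Pool.Agent.Lib.MP_ab035a_co

open Finset

/-- Second difference of `f` on the pairs `(a, b)` and `(c, d)`. -/
def dd {X : Type*} (f : X → X → ℤ) (a b c d : X) : ℤ := f a c - f a d - f b c + f b d

/-- A family of `m` gadgets: quadruples with second difference `δ` and vanishing second
differences between different quadruples. -/
structure GadgetFam {X : Type*} (f : X → X → ℤ) {m : ℕ} (z : Fin m → Fin 4 → X) (δ : ℤ) :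
    Prop where
  inj : ∀ g i g' i', z g i = z g' i' → g = g' ∧ i = i'
  main : ∀ g, dd f (z g 0) (z g 1) (z g 2) (z g 3) = δ
  c00 : ∀ g g', g ≠ g' → dd f (z g 0) (z g 1) (z g' 0) (z g' 1) = 0
  c01 : ∀ g g', g ≠ g' → dd f (z g 0) (z g 1) (z g' 2) (z g' 3) = 0
  c11 : ∀ g g', g ≠ g' → dd f (z g 2) (z g 3) (z g' 2) (z g' 3) = 0

lemma exists_gadgets (K m : ℕ) (hK : 0 < K) (Λ : Type) [Fintype Λ] [Nonempty Λ] :
    ∃ F : ℕ, ∀ (X : Type) (f : X → X → ℤ), (∀ x y, f x y = f y x) →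
      (∀ x y, 0 ≤ f x y ∧ f x y < K) → ∀ (lam : X → Λ) (d : ℤ) (Z : Finset X), F ≤ Z.card →
      (∀ z ∈ Z, ∀ z' ∈ Z, z ≠ z' → ∃ w, w ≠ z ∧ w ≠ z' ∧ ¬ f z w ≡ f z' w [ZMOD d]) →
      ∃ (z : Fin m → Fin 4 → X) (δ : ℤ), (¬ d ∣ δ ∧ -(K : ℤ) < δ ∧ δ < K) ∧ GadgetFam f z δ ∧
        (∀ g g', lam (z g 0) = lam (z g' 0) ∧ lam (z g 1) = lam (z g' 0)) ∧
        (∀ g g', lam (z g 2) = lam (z g' 2) ∧ lam (z g 3) = lam (z g' 2)) := by
  haveI : Nonempty (Fin K) := ⟨⟨0, hK⟩⟩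
  obtain ⟨F, hF⟩ := exists_pattern (Fin K) Λ (3 * m)
  refine ⟨F, fun X f hsymm hrange lam d Z hZ hsep => ?_⟩
  let f' : X → X → Fin K := fun x y => ⟨(f x y).toNat, by
    have := hrange x y; omega⟩
  have hf' : ∀ x y, (((f' x y : Fin K) : ℕ) : ℤ) = f x y := fun x y => by
    simp only [f']; exact Int.toNat_of_nonneg (hrange x y).1
  let E : Fin K → Fin K → Prop := fun a b => ((a : ℕ) : ℤ) ≡ ((b : ℕ) : ℤ) [ZMOD d]
  have hE : Equivalence E := ⟨fun a => Int.ModEq.refl _, fun h => Int.ModEq.symm h,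
    fun h h' => Int.ModEq.trans h h'⟩
  obtain ⟨x, y, hpat⟩ := hF X f' lam E hE Z hZ (by
    intro z hz z' hz' hne
    obtain ⟨w, h1, h2, h3⟩ := hsep z hz z' hz' hne
    refine ⟨w, h1, h2, ?_⟩
    simp only [E, hf']
    exact h3)
  obtain ⟨α, β, γ, κ, μ, hβγ, hα, hβ, hγ, hκ, hμ⟩ := hpat.pat
  have tr : ∀ (p q : X) (c : Fin K), f' p q = c → f p q = ((c : ℕ) : ℤ) := by
    intro p q c h; rw [← hf', h]
  have hα' : ∀ i j, i < j → f (x i) (y j) = ((α : ℕ) : ℤ) := fun i j h => tr _ _ _ (hα i j h)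
  have hβ' : ∀ i, f (x i) (y i) = ((β : ℕ) : ℤ) := fun i => tr _ _ _ (hβ i)
  have hγ' : ∀ i j, i < j → f (x j) (y i) = ((γ : ℕ) : ℤ) := fun i j h => tr _ _ _ (hγ i j h)
  have hκ' : ∀ i j, i ≠ j → f (x i) (x j) = ((κ : ℕ) : ℤ) := fun i j h => by
    rcases lt_or_gt_of_ne h with h | h
    · exact tr _ _ _ (hκ i j h)
    · rw [hsymm]; exact tr _ _ _ (hκ j i h)
  have hμ' : ∀ i j, i ≠ j → f (y i) (y j) = ((μ : ℕ) : ℤ) := fun i j h => by
    rcases lt_or_gt_of_ne h with h | h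
    · exact tr _ _ _ (hμ i j h)
    · rw [hsymm]; exact tr _ _ _ (hμ j i h)
  let ix : Fin m → Fin 3 → Fin (3 * m) := fun g j => ⟨3 * g.1 + j.1, by omega⟩
  have hixlt : ∀ g g' j j', g < g' → ix g j < ix g' j' := by
    intro g g' j j' h
    simp only [ix, Fin.lt_def]
    have := Fin.lt_def.mp h
    omega
  have hixlt' : ∀ g j j', j < j' → ix g j < ix g j' := by
    intro g j j' h
    simp only [ix, Fin.lt_def]
    have := Fin.lt_def.mp h
    omega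
  have hixne : ∀ g g' j j', g ≠ g' → ix g j ≠ ix g' j' := by
    intro g g' j j' h
    rcases lt_or_gt_of_ne h with h | h
    · exact (hixlt _ _ _ _ h).ne
    · exact (hixlt _ _ _ _ h).ne'
  have hixinj : ∀ g g' j j', ix g j = ix g' j' → g = g' ∧ j = j' := by
    intro g g' j j' h
    simp only [ix, Fin.mk.injEq] at h
    constructor
    · apply Fin.ext; omega
    · apply Fin.ext; omega
  let z : Fin m → Fin 4 → X := fun g => ![x (ix g 1), x (ix g 2), y (ix g 1), y (ix g 0)]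
  have z0 : ∀ g, z g 0 = x (ix g 1) := fun g => rfl
  have z1 : ∀ g, z g 1 = x (ix g 2) := fun g => rfl
  have z2 : ∀ g, z g 2 = y (ix g 1) := fun g => rfl
  have z3 : ∀ g, z g 3 = y (ix g 0) := fun g => rfl
  refine ⟨z, ((β : ℕ) : ℤ) - ((γ : ℕ) : ℤ), ⟨?_, ?_, ?_⟩, ⟨?_, ?_, ?_, ?_, ?_⟩, ?_, ?_⟩
  · intro hdvd
    apply hβγ
    exact (Int.modEq_iff_dvd.mpr hdvd).symm
  · have := β.2; have := γ.2; omega
  · have := β.2; have := γ.2; omega
  · intro g i g' i' h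
    have key : ∀ i : Fin 4, (∃ j, z g i = x (ix g j) ∧ (i = 0 ∧ j = 1 ∨ i = 1 ∧ j = 2)) ∨
        (∃ j, z g i = y (ix g j) ∧ (i = 2 ∧ j = 1 ∨ i = 3 ∧ j = 0)) := by
      intro i
      fin_cases i
      · exact Or.inl ⟨1, rfl, by simp⟩
      · exact Or.inl ⟨2, rfl, by simp⟩
      · exact Or.inr ⟨1, rfl, by simp⟩
      · exact Or.inr ⟨0, rfl, by simp⟩
    have key' : ∀ i : Fin 4, (∃ j, z g' i = x (ix g' j) ∧ (i = 0 ∧ j = 1 ∨ i = 1 ∧ j = 2)) ∨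
        (∃ j, z g' i = y (ix g' j) ∧ (i = 2 ∧ j = 1 ∨ i = 3 ∧ j = 0)) := by
      intro i
      fin_cases i
      · exact Or.inl ⟨1, rfl, by simp⟩
      · exact Or.inl ⟨2, rfl, by simp⟩
      · exact Or.inr ⟨1, rfl, by simp⟩
      · exact Or.inr ⟨0, rfl, by simp⟩
    rcases key i with ⟨j, hj, hj'⟩ | ⟨j, hj, hj'⟩ <;>
      rcases key' i' with ⟨l, hl, hl'⟩ | ⟨l, hl, hl'⟩
    · rw [hj, hl] at h
      obtain ⟨hg, hjl⟩ := hixinj _ _ _ _ (hpat.injx h)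
      refine ⟨hg, ?_⟩
      rcases hj' with ⟨a, b⟩ | ⟨a, b⟩ <;> rcases hl' with ⟨c, e⟩ | ⟨c, e⟩ <;> subst a <;>
        subst c <;> first | rfl | (rw [b, e] at hjl; exact absurd hjl (by decide))
    · rw [hj, hl] at h; exact absurd h (hpat.disj _ _)
    · rw [hj, hl] at h; exact absurd h.symm (hpat.disj _ _)
    · rw [hj, hl] at h
      obtain ⟨hg, hjl⟩ := hixinj _ _ _ _ (hpat.injy h)
      refine ⟨hg, ?_⟩
      rcases hj' with ⟨a, b⟩ | ⟨a, b⟩ <;> rcases hl' with ⟨c, e⟩ | ⟨c, e⟩ <;> subst a <;>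
        subst c <;> first | rfl | (rw [b, e] at hjl; exact absurd hjl (by decide))
  · intro g
    rw [z0, z1, z2, z3, dd, hβ', hγ' _ _ (hixlt' g 0 1 (by decide)),
      hγ' _ _ (hixlt' g 1 2 (by decide)), hγ' _ _ (hixlt' g 0 2 (by decide))]
    ring
  · intro g g' h
    rw [z0, z1, z0, z1, dd, hκ' _ _ (hixne _ _ _ _ h), hκ' _ _ (hixne _ _ _ _ h),
      hκ' _ _ (hixne _ _ _ _ h), hκ' _ _ (hixne _ _ _ _ h)]
    ring
  · intro g g' h
    rw [z0, z1, z2, z3, dd]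
    rcases lt_or_gt_of_ne h with h | h
    · rw [hα' _ _ (hixlt _ _ _ _ h), hα' _ _ (hixlt _ _ _ _ h), hα' _ _ (hixlt _ _ _ _ h),
        hα' _ _ (hixlt _ _ _ _ h)]
      ring
    · rw [hγ' _ _ (hixlt _ _ _ _ h), hγ' _ _ (hixlt _ _ _ _ h), hγ' _ _ (hixlt _ _ _ _ h),
        hγ' _ _ (hixlt _ _ _ _ h)]
      ring
  · intro g g' h
    rw [z2, z3, z2, z3, dd, hμ' _ _ (hixne _ _ _ _ h), hμ' _ _ (hixne _ _ _ _ h),
      hμ' _ _ (hixne _ _ _ _ h), hμ' _ _ (hixne _ _ _ _ h)]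
    ring
  · intro g g'
    exact ⟨hpat.lamx _ _, hpat.lamx _ _⟩
  · intro g g'
    exact ⟨hpat.lamy _ _, hpat.lamy _ _⟩

/-- Gadgets avoiding a bounded set of reserved points. -/
lemma exists_gadgets_avoid (K m r : ℕ) (hK : 0 < K) (Λ : Type) [Fintype Λ] [Nonempty Λ] :
    ∃ F : ℕ, ∀ (X : Type) (f : X → X → ℤ), (∀ x y, f x y = f y x) →
      (∀ x y, 0 ≤ f x y ∧ f x y < K) → ∀ (lam : X → Λ) (d : ℤ) (R : Finset X), R.card ≤ r →
      ∀ (Z : Finset X), F ≤ Z.card →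
      (∀ z ∈ Z, ∀ z' ∈ Z, z ≠ z' → ∃ w, w ≠ z ∧ w ≠ z' ∧ ¬ f z w ≡ f z' w [ZMOD d]) →
      ∃ (z : Fin m → Fin 4 → X) (δ : ℤ), (¬ d ∣ δ ∧ -(K : ℤ) < δ ∧ δ < K) ∧ GadgetFam f z δ ∧
        (∀ g g', lam (z g 0) = lam (z g' 0) ∧ lam (z g 1) = lam (z g' 0)) ∧
        (∀ g g', lam (z g 2) = lam (z g' 2) ∧ lam (z g 3) = lam (z g' 2)) ∧
        (∀ g i, z g i ∉ R) := by
  classical
  obtain ⟨F, hF⟩ := exists_gadgets K m hK (Λ × Option (Fin r))
  refine ⟨F, fun X f hsymm hrange lam d R hR Z hZ hsep => ?_⟩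
  let idx : X → Option (Fin r) := fun x =>
    if h : x ∈ R then some ⟨(R.equivFin ⟨x, h⟩).1, lt_of_lt_of_le (R.equivFin ⟨x, h⟩).2 hR⟩
    else none
  have hidx : ∀ x x', x ∈ R → idx x = idx x' → x = x' := by
    intro x x' hx h
    by_cases hx' : x' ∈ R
    · simp only [idx, hx, hx', dif_pos, Option.some.injEq, Fin.mk.injEq] at h
      have h2 := R.equivFin.injective (Fin.ext h)
      exact congrArg Subtype.val h2
    · simp [idx, hx, hx'] at h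
  obtain ⟨z, δ, h1, h2, h3, h4⟩ := hF X f hsymm hrange (fun x => (lam x, idx x)) d Z hZ hsep
  have e3 : ∀ g g', (lam (z g 0) = lam (z g' 0) ∧ idx (z g 0) = idx (z g' 0)) ∧
      (lam (z g 1) = lam (z g' 0) ∧ idx (z g 1) = idx (z g' 0)) := by
    intro g g'
    have := h3 g g'
    simp only [Prod.mk.injEq] at this
    exact this
  have e4 : ∀ g g', (lam (z g 2) = lam (z g' 2) ∧ idx (z g 2) = idx (z g' 2)) ∧
      (lam (z g 3) = lam (z g' 2) ∧ idx (z g 3) = idx (z g' 2)) := by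
    intro g g'
    have := h4 g g'
    simp only [Prod.mk.injEq] at this
    exact this
  refine ⟨z, δ, h1, h2, fun g g' => ⟨(e3 g g').1.1, (e3 g g').2.1⟩,
    fun g g' => ⟨(e4 g g').1.1, (e4 g g').2.1⟩, ?_⟩
  intro g i hmem
  have c01 : z g 0 ≠ z g 1 := fun h => by
    have := (h2.inj _ _ _ _ h).2; exact absurd this (by decide)
  have c23 : z g 2 ≠ z g 3 := fun h => by
    have := (h2.inj _ _ _ _ h).2; exact absurd this (by decide)
  have k1 : idx (z g 1) = idx (z g 0) := (e3 g g).2.2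
  have k2 : idx (z g 3) = idx (z g 2) := (e4 g g).2.2
  fin_cases i
  · exact c01 (hidx _ _ hmem k1.symm)
  · exact c01 (hidx _ _ hmem k1).symm
  · exact c23 (hidx _ _ hmem k2.symm)
  · exact c23 (hidx _ _ hmem k2).symm

end Pool.Agent.Lib.MP_ab035a_co
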