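import Pool.Agent.Lib.MP_ab035a_co.Adjust

/-!
# Weights of placements, push-forward, and the lifting lemma
-/

set_option autoImplicit false

namespace Pool.Agent.Lib.MP_ab035a_co

open Finset

section

variable {V X : Type*} [Fintype V] [Fintype X] [DecidableEq X]

/-- Ordered weight of a placement. -/
def wt (A : V → V → ℤ) (c : X → X → ℤ) (φ : V → X) : ℤ := ∑ u, ∑ v, A u v * c (φ u) (φ v)

/-- Push-forward of `A` along `φ`. -/
def push (A : V → V → ℤ) (φ : V → X) : X → X → ℤ :=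
  fun x y => ∑ u, ∑ v, if φ u = x ∧ φ v = y then A u v else 0

omit [Fintype X] in
lemma push_symm (A : V → V → ℤ) (hA : ∀ u v, A u v = A v u) (φ : V → X) (x y : X) :
    push A φ x y = push A φ y x := by
  unfold push
  rw [Finset.sum_comm]
  refine Finset.sum_congr rfl fun u _ => Finset.sum_congr rfl fun v _ => ?_
  rw [hA v u]
  by_cases h : φ v = x ∧ φ u = y
  · rw [if_pos h, if_pos ⟨h.2, h.1⟩]
  · rw [if_neg h, if_neg (fun h' => h ⟨h'.2, h'.1⟩)]

omit [Fintype X] in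
lemma push_apply (A : V → V → ℤ) {φ : V → X} (hφ : Function.Injective φ) (u v : V) :
    push A φ (φ u) (φ v) = A u v := by
  unfold push
  rw [Finset.sum_eq_single u]
  · rw [Finset.sum_eq_single v]
    · simp
    · intro v' _ hv'
      rw [if_neg]; rintro ⟨_, h⟩; exact hv' (hφ h)
    · intro h; exact absurd (Finset.mem_univ _) h
  · intro u' _ hu'
    apply Finset.sum_eq_zero
    intro v' _
    rw [if_neg]; rintro ⟨h, _⟩; exact hu' (hφ h)
  · intro h; exact absurd (Finset.mem_univ _) h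

omit [Fintype X] in
lemma push_zero_left (A : V → V → ℤ) {φ : V → X} {x : X} (hx : ∀ u, φ u ≠ x) (y : X) :
    push A φ x y = 0 := by
  unfold push
  apply Finset.sum_eq_zero
  intro u _
  apply Finset.sum_eq_zero
  intro v _
  rw [if_neg]; rintro ⟨h, _⟩; exact hx u h

omit [Fintype X] in
lemma push_zero_right (A : V → V → ℤ) {φ : V → X} {y : X} (hy : ∀ u, φ u ≠ y) (x : X) :
    push A φ x y = 0 := by
  unfold push
  apply Finset.sum_eq_zero
  intro u _
  apply Finset.sum_eq_zero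
  intro v _
  rw [if_neg]; rintro ⟨_, h⟩; exact hy v h

lemma wt_comp (A : V → V → ℤ) (c : X → X → ℤ) (φ : V → X) (π : X → X) :
    ∑ p, ∑ q, push A φ p q * c (π p) (π q) = wt A c (π ∘ φ) := by
  unfold push wt
  have e1 : ∀ p q, (∑ u, ∑ v, if φ u = p ∧ φ v = q then A u v else 0) * c (π p) (π q) =
      ∑ u, ∑ v, if φ u = p then (if φ v = q then A u v * c (π p) (π q) else 0) else 0 := by
    intro p q
    rw [Finset.sum_mul]
    refine Finset.sum_congr rfl fun u _ => ?_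
    rw [Finset.sum_mul]
    refine Finset.sum_congr rfl fun v _ => ?_
    by_cases h1 : φ u = p
    · by_cases h2 : φ v = q
      · rw [if_pos ⟨h1, h2⟩, if_pos h1, if_pos h2]
      · rw [if_neg (fun h => h2 h.2), if_pos h1, if_neg h2, zero_mul]
    · rw [if_neg (fun h => h1 h.1), if_neg h1, zero_mul]
  simp only [e1]
  have e2 : ∀ p, ∑ q, ∑ u, ∑ v, (if φ u = p then
      (if φ v = q then A u v * c (π p) (π q) else 0) else 0) =
      ∑ u, ∑ v, (if φ u = p then A u v * c (π p) (π (φ v)) else 0) := by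
    intro p
    rw [Finset.sum_comm]
    refine Finset.sum_congr rfl fun u _ => ?_
    rw [Finset.sum_comm]
    refine Finset.sum_congr rfl fun v _ => ?_
    by_cases h1 : φ u = p
    · simp only [if_pos h1]
      rw [Finset.sum_ite_eq]; simp
    · simp only [if_neg h1]; simp
  simp only [e2]
  rw [Finset.sum_comm]
  refine Finset.sum_congr rfl fun u _ => ?_
  rw [Finset.sum_comm]
  refine Finset.sum_congr rfl fun v _ => ?_
  rw [Finset.sum_ite_eq]; simp

end

lemma exists_t (d : ℕ) (hd : 0 < d) (δ s : ℤ) (h : ((Int.gcd d δ : ℕ) : ℤ) ∣ s) :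
    ∃ t : ℕ, t < d ∧ (d : ℤ) ∣ s + t * δ := by
  obtain ⟨r, hr⟩ := h
  have hb := Int.gcd_eq_gcd_ab (d : ℤ) δ
  set x := Int.gcdA d δ
  set y := Int.gcdB d δ
  have hd' : (0 : ℤ) < d := by exact_mod_cast hd
  set t0 : ℤ := (-(r * y)) % d with ht0
  have h0 : 0 ≤ t0 := Int.emod_nonneg _ hd'.ne'
  have h1 : t0 < d := Int.emod_lt_of_pos _ hd'
  refine ⟨t0.toNat, by omega, ?_⟩
  rw [Int.toNat_of_nonneg h0]
  have h2 : (d : ℤ) ∣ (-(r * y)) - t0 := by
    rw [ht0]; exact Int.dvd_self_sub_emod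
  obtain ⟨q, hq⟩ := h2
  have h3 : t0 = -(r * y) - d * q := by linarith
  rw [h3, hr, hb]
  exact ⟨x * r - q * δ, by ring⟩

section

variable {V X : Type*} [Fintype V] [Fintype X] [DecidableEq X]

/-- **Lifting lemma**: from divisibility by `2 gcd(d, δ)` to divisibility by `2 d`. -/
lemma lift (k d m : ℕ) (hk : 0 < k) (hd : d ∣ k) (hm : 16 * k ^ 3 ≤ m)
    (A : V → V → ℤ) (hA : ∀ u v, A u v = A v u)
    (c : X → X → ℤ) (hc : ∀ x y, c x y = c y x) (φ : V → X)
    (z : Fin m → Fin 4 → X) (hinj : ∀ g i g' i', z g i = z g' i' → g = g' ∧ i = i')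
    (h00 : ∀ g g', g ≠ g' → dd (push A φ) (z g 0) (z g 1) (z g' 0) (z g' 1) *
      dd c (z g 0) (z g 1) (z g' 0) (z g' 1) = 0)
    (h01 : ∀ g g', g ≠ g' → dd (push A φ) (z g 0) (z g 1) (z g' 2) (z g' 3) *
      dd c (z g 0) (z g 1) (z g' 2) (z g' 3) = 0)
    (h11 : ∀ g g', g ≠ g' → dd (push A φ) (z g 2) (z g 3) (z g' 2) (z g' 3) *
      dd c (z g 2) (z g 3) (z g' 2) (z g' 3) = 0)
    (δ : ℤ) (hδ : ∀ g, dd (push A φ) (z g 0) (z g 1) (z g 2) (z g 3) *
      dd c (z g 0) (z g 1) (z g 2) (z g 3) ≡ δ [ZMOD d])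
    (hdiv : ((2 * Int.gcd d δ : ℕ) : ℤ) ∣ wt A c φ) :
    ∃ π : Equiv.Perm X, (∀ x, (∀ g i, x ≠ z g i) → π x = x) ∧
      ((2 * d : ℕ) : ℤ) ∣ wt A c (π ∘ φ) := by
  have hd0 : 0 < d := Nat.pos_of_dvd_of_pos hd hk
  obtain ⟨s, hs⟩ := hdiv
  obtain ⟨t, ht, hdvd⟩ := exists_t d hd0 δ (((Int.gcd d δ : ℕ) : ℤ) * s) (Dvd.intro _ rfl)
  have htk : t ≤ 2 * k := by
    have := Nat.le_of_dvd hk hd; omega
  obtain ⟨π, hfix, hπ⟩ := adjust k d m hk hd hm (push A φ) c (push_symm A hA φ) hc z hinj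
    h00 h01 h11 δ hδ t htk
  refine ⟨π, hfix, ?_⟩
  have e1 := wt_comp A c φ (⇑π)
  have e2 := wt_comp A c φ id
  simp only [id, Function.id_comp] at e2
  have e2' : ∑ p, ∑ q, push A φ p q * c p q = wt A c φ := e2
  rw [e1, e2'] at hπ
  rw [← Int.modEq_zero_iff_dvd]
  refine hπ.trans ?_
  rw [Int.modEq_zero_iff_dvd, hs]
  obtain ⟨r, hr⟩ := hdvd
  refine ⟨r, ?_⟩
  push_cast
  have : 2 * ((Int.gcd d δ : ℕ) : ℤ) * s + 2 * t * δ =
      2 * (((Int.gcd d δ : ℕ) : ℤ) * s + t * δ) := by ring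
  rw [this, hr]; ring

end

/-! ### Class structures -/

section

variable {X : Type} 

/-- There are `F` points that pairwise behave differently modulo `d`. -/
def NonTwins (f : X → X → ℤ) (d : ℤ) (F : ℕ) : Prop :=
  ∃ Z : Finset X, F ≤ Z.card ∧
    ∀ z ∈ Z, ∀ z' ∈ Z, z ≠ z' → ∃ w, w ≠ z ∧ w ≠ z' ∧ ¬ f z w ≡ f z' w [ZMOD d]

/-- `f` is determined modulo `d` by the classes of its arguments, with `B` classes. -/
def ClassStruct (f : X → X → ℤ) (d : ℤ) (B : ℕ) : Prop :=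
  ∃ (κ : X → Fin B) (C : Fin B → Fin B → ℤ), ∀ x y, x ≠ y → f x y ≡ C (κ x) (κ y) [ZMOD d]

lemma classStruct_of_not_nonTwins [Fintype X] (f : X → X → ℤ) (hf : ∀ x y, f x y = f y x)
    (d : ℤ) (F : ℕ) (h : ¬ NonTwins f d F) : ClassStruct f d F := by
  classical
  let Sep : Finset X → Prop := fun Z =>
    ∀ z ∈ Z, ∀ z' ∈ Z, z ≠ z' → ∃ w, w ≠ z ∧ w ≠ z' ∧ ¬ f z w ≡ f z' w [ZMOD d]
  have hne : ((Finset.univ : Finset (Finset X)).filter Sep).Nonempty :=
    ⟨∅, by simp [Sep]⟩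
  obtain ⟨Z, hZ, hmax⟩ := Finset.exists_max_image _ Finset.card hne
  rw [Finset.mem_filter] at hZ
  have hZF : Z.card < F := by
    by_contra hcon
    exact h ⟨Z, by omega, hZ.2⟩
  let Tw : X → X → Prop := fun x x' => ∀ w, w ≠ x → w ≠ x' → f x w ≡ f x' w [ZMOD d]
  have tw_refl : ∀ x, Tw x x := fun x w _ _ => Int.ModEq.refl _
  have tw_symm : ∀ x x', Tw x x' → Tw x' x := fun x x' h w h1 h2 => (h w h2 h1).symm
  have tw_trans : ∀ x y z, Tw x y → Tw y z → Tw x z := by
    intro x y z hxy hyz w hwx hwz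
    by_cases hw : w = y
    · subst hw
      by_cases hxz : x = z
      · rw [hxz]
      · have h1 : f x z ≡ f w z [ZMOD d] := hxy z (Ne.symm hxz) (Ne.symm hwz)
        have h2 : f w x ≡ f z x [ZMOD d] := hyz x (Ne.symm hwx) hxz
        calc f x w = f w x := hf _ _
          _ ≡ f z x [ZMOD d] := h2
          _ = f x z := hf _ _
          _ ≡ f w z [ZMOD d] := h1
          _ = f z w := hf _ _
    · exact (hxy w hwx hw).trans (hyz w hw hwz)
  have hrep : ∀ x, ∃ z ∈ Z, Tw x z := by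
    intro x
    by_contra hcon
    push Not at hcon
    have hx : x ∉ Z := fun hx => hcon x hx (tw_refl x)
    have hsep : Sep (insert x Z) := by
      intro a ha b hb hab
      rw [Finset.mem_insert] at ha hb
      rcases ha with rfl | ha
      · rcases hb with rfl | hb
        · exact absurd rfl hab
        · have := hcon b hb
          simp only [Tw] at this
          push Not at this
          obtain ⟨w, h1, h2, h3⟩ := this
          exact ⟨w, h1, h2, h3⟩
      · rcases hb with rfl | hb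
        · have := hcon a ha
          simp only [Tw] at this
          push Not at this
          obtain ⟨w, h1, h2, h3⟩ := this
          exact ⟨w, h2, h1, fun h' => h3 h'.symm⟩
        · exact hZ.2 a ha b hb hab
    have := hmax (insert x Z) (Finset.mem_filter.mpr ⟨Finset.mem_univ _, hsep⟩)
    rw [Finset.card_insert_of_notMem hx] at this
    omega
  choose rep hrepZ hrepT using hrep
  let κ : X → Fin F := fun x =>
    ⟨(Z.equivFin ⟨rep x, hrepZ x⟩).1, lt_trans (Z.equivFin ⟨rep x, hrepZ x⟩).2 hZF⟩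
  have hκ : ∀ x x', κ x = κ x' → Tw x x' := by
    intro x x' h
    simp only [κ, Fin.mk.injEq] at h
    have h2 := Z.equivFin.injective (Fin.ext h)
    have h3 : rep x = rep x' := congrArg Subtype.val h2
    exact tw_trans _ _ _ (hrepT x) (h3 ▸ tw_symm _ _ (hrepT x'))
  have hwd : ∀ x y x' y', x ≠ y → x' ≠ y' → κ x = κ x' → κ y = κ y' →
      f x y ≡ f x' y' [ZMOD d] := by
    intro x y x' y' hxy hxy' h1 h2
    by_cases hx'y : x' = y
    · subst hx'y
      by_cases hy'x : y' = x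
      · subst hy'x; rw [hf]
      · have t1 : Tw x y' := hκ x y' (h1.trans h2)
        have := t1 x' hxy.symm hxy'
        rw [hf y' x'] at this
        exact this
    · have e1 : f x y ≡ f x' y [ZMOD d] := hκ x x' h1 y hxy.symm (Ne.symm hx'y)
      have e2 : f y x' ≡ f y' x' [ZMOD d] := hκ y y' h2 x' hx'y hxy'
      rw [hf y x', hf y' x'] at e2
      exact e1.trans e2
  refine ⟨κ, fun s t => if h : ∃ p : X × X, p.1 ≠ p.2 ∧ κ p.1 = s ∧ κ p.2 = t then
    f h.choose.1 h.choose.2 else 0, ?_⟩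
  intro x y hxy
  have hex : ∃ p : X × X, p.1 ≠ p.2 ∧ κ p.1 = κ x ∧ κ p.2 = κ y := ⟨(x, y), hxy, rfl, rfl⟩
  simp only [dif_pos hex]
  exact hwd _ _ _ _ hxy hex.choose_spec.1 hex.choose_spec.2.1.symm hex.choose_spec.2.2.symm

end

end Pool.Agent.Lib.MP_ab035a_co
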