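import Pool.Agent.Lib.MP_ab035a_co.Cases

/-!
# The main argument
-/

set_option autoImplicit false

namespace Pool.Agent.Lib.MP_ab035a_co

open Finset

variable {k : ℕ}

lemma ClassStruct.symm {X : Type} {f : X → X → ℤ} (hf : ∀ x y, f x y = f y x) {d : ℤ} {B : ℕ}
    (h : ClassStruct f d B) : ∃ (κ : X → Fin B) (C : Fin B → Fin B → ℤ),
      (∀ s t, C s t = C t s) ∧ ∀ x y, x ≠ y → f x y ≡ C (κ x) (κ y) [ZMOD d] := by
  obtain ⟨κ, C, hC⟩ := h
  refine ⟨κ, fun s t => C (min s t) (max s t), fun s t => by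
    simp only [min_comm s t, max_comm s t], ?_⟩
  intro x y hxy
  rcases le_total (κ x) (κ y) with h | h
  · simp only [min_eq_left h, max_eq_right h]; exact hC x y hxy
  · simp only [min_eq_right h, max_eq_left h]; rw [hf]; exact hC y x hxy.symm

/-! ### Matchings -/

lemma matching_or_cover {V : Type*} [DecidableEq V] (A : V → V → ℤ) (hd : ∀ u, A u u = 0)
    (P : Finset V) (m : ℕ) :
    (∃ u v : Fin m → V, Function.Injective u ∧ Function.Injective v ∧ (∀ g g', u g ≠ v g') ∧
      (∀ g, A (u g) (v g) ≠ 0) ∧ (∀ g, u g ∉ P ∧ v g ∉ P)) ∨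
    (∃ Z : Finset V, Z.card ≤ 2 * m + P.card ∧ ∀ u v, A u v ≠ 0 → u ∈ Z ∨ v ∈ Z) := by
  induction m with
  | zero =>
    exact Or.inl ⟨Fin.elim0, Fin.elim0, fun i => i.elim0, fun i => i.elim0, fun i => i.elim0,
      fun i => i.elim0, fun i => i.elim0⟩
  | succ m ih =>
    rcases ih with ⟨u, v, hu, hv, huv, hA, hP⟩ | ⟨Z, hZ, hc⟩
    · by_cases hcov : ∀ x y, A x y ≠ 0 → x ∈ P ∪ (univ.image u ∪ univ.image v) ∨
          y ∈ P ∪ (univ.image u ∪ univ.image v)
      · right
        refine ⟨_, ?_, hcov⟩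
        have h1 := Finset.card_union_le P (univ.image u ∪ univ.image v)
        have h2 := Finset.card_union_le (univ.image u) (univ.image v)
        have h3 : ((univ : Finset (Fin m)).image u).card ≤ m := by
          refine Finset.card_image_le.trans ?_; simp
        have h4 : ((univ : Finset (Fin m)).image v).card ≤ m := by
          refine Finset.card_image_le.trans ?_; simp
        omega
      · left
        push Not at hcov
        obtain ⟨x, y, hxy, hx, hy⟩ := hcov
        simp only [mem_union, mem_image, mem_univ, true_and, not_or, not_exists] at hx hy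
        obtain ⟨hx1, hx2, hx3⟩ := hx
        obtain ⟨hy1, hy2, hy3⟩ := hy
        have hne : x ≠ y := by rintro rfl; exact hxy (hd x)
        refine ⟨Fin.cons x u, Fin.cons y v, ?_, ?_, ?_, ?_, ?_⟩
        · rw [Fin.cons_injective_iff]
          exact ⟨by rintro ⟨i, hi⟩; exact hx2 i hi, hu⟩
        · rw [Fin.cons_injective_iff]
          exact ⟨by rintro ⟨i, hi⟩; exact hy3 i hi, hv⟩
        · intro g g'
          refine Fin.cases ?_ (fun i => ?_) g
          · refine Fin.cases ?_ (fun j => ?_) g'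
            · simpa using hne
            · simp only [Fin.cons_zero, Fin.cons_succ]
              exact fun h => hx3 j h.symm
          · refine Fin.cases ?_ (fun j => ?_) g'
            · simp only [Fin.cons_zero, Fin.cons_succ]
              exact hy2 i
            · simp only [Fin.cons_succ]
              exact huv i j
        · intro g
          refine Fin.cases ?_ (fun i => ?_) g
          · simpa using hxy
          · simpa using hA i
        · intro g
          refine Fin.cases ?_ (fun i => ?_) g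
          · simpa using ⟨hx1, hy1⟩
          · simpa using hP i
    · exact Or.inr ⟨Z, by omega, hc⟩

lemma exists_hmat (I : Inst k) {a : ℕ} (cl : Fin I.n → Fin a) (w m : ℕ)
    (hnc : ¬ ∃ Z : Finset (Fin I.n), Z.card ≤ 2 * (a * a * m) + w ∧
      ∀ u v, I.A u v ≠ 0 → u ∈ Z ∨ v ∈ Z) :
    ∀ P : Finset (Fin I.n), P.card ≤ w → ∃ u v : Fin m → Fin I.n,
      Function.Injective u ∧ Function.Injective v ∧ (∀ g g', u g ≠ v g') ∧
      (∀ g, I.A (u g) (v g) = 1) ∧ (∀ g, u g ∉ P ∧ v g ∉ P) ∧
      (∀ g g', cl (u g) = cl (u g')) ∧ (∀ g g', cl (v g) = cl (v g')) := by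
  classical
  intro P hP
  rcases matching_or_cover I.A I.A_diag P (a * a * m) with ⟨u, v, hu, hv, huv, hA, hPuv⟩ | ⟨Z, hZ, hc⟩
  · rcases Nat.eq_zero_or_pos m with rfl | hm
    · exact ⟨Fin.elim0, Fin.elim0, fun i => i.elim0, fun i => i.elim0, fun i => i.elim0,
        fun i => i.elim0, fun i => i.elim0, fun i => i.elim0, fun i => i.elim0⟩
    have hne : Nonempty (Fin a × Fin a) := by
      by_contra hcon
      apply hnc
      refine ⟨∅, by simp, fun u _ _ => ?_⟩
      exact absurd ⟨(cl u, cl u)⟩ hcon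
    obtain ⟨e, he⟩ : ∃ e : Fin a × Fin a, m ≤ ((univ : Finset (Fin (a * a * m))).filter
        (fun g => (cl (u g), cl (v g)) = e)).card := by
      obtain ⟨e, he⟩ := exists_color_class (univ : Finset (Fin (a * a * m)))
        (fun g => (cl (u g), cl (v g))) m (by simp)
      exact ⟨e, by convert he⟩
    obtain ⟨T, hT, hTc⟩ := Finset.exists_subset_card_eq he
    let ι : Fin m ↪o Fin (a * a * m) := T.orderEmbOfFin hTc
    have hι : ∀ g, (cl (u (ι g)), cl (v (ι g))) = e := by
      intro g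
      have := hT (Finset.orderEmbOfFin_mem T hTc g)
      rw [Finset.mem_filter] at this
      exact this.2
    refine ⟨u ∘ ι, v ∘ ι, hu.comp ι.injective, hv.comp ι.injective, fun g g' => huv _ _, ?_,
      fun g => hPuv _, ?_, ?_⟩
    · intro g
      have h1 := I.A_range (u (ι g)) (v (ι g))
      have h2 := hA (ι g)
      simp only [Function.comp_apply]
      omega
    · intro g g'
      have h1 := congrArg Prod.fst (hι g)
      have h2 := congrArg Prod.fst (hι g')
      exact h1.trans h2.symm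
    · intro g g'
      have h1 := congrArg Prod.snd (hι g)
      have h2 := congrArg Prod.snd (hι g')
      exact h1.trans h2.symm
  · exact absurd ⟨Z, by omega, hc⟩ hnc

/-- Distinct points in prescribed large classes. -/
lemma exists_in_classes {ι X : Type*} [Fintype X] [DecidableEq X] [DecidableEq ι] {b : ℕ}
    (κ : X → Fin b) (τ : ι → Fin b) (x0 : X) (R : Finset X) (S : Finset ι)
    (h : ∀ i ∈ S, S.card + R.card ≤ ((univ : Finset X).filter (fun x => κ x = τ i)).card) :
    ∃ y : ι → X, Set.InjOn y (S : Set ι) ∧ ∀ i ∈ S, y i ∉ R ∧ κ (y i) = τ i := by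
  induction S using Finset.induction_on with
  | empty => exact ⟨fun _ => x0, by simp, by simp⟩
  | insert a S ha ih =>
    rw [Finset.card_insert_of_notMem ha] at h
    obtain ⟨y, hy1, hy2⟩ := ih (fun i hi => by
      have := h i (mem_insert_of_mem hi); omega)
    have hex : (((univ : Finset X).filter (fun x => κ x = τ a)) \ (R ∪ S.image y)).Nonempty := by
      rw [← Finset.card_pos]
      have h1 := Finset.le_card_sdiff (R ∪ S.image y)
        ((univ : Finset X).filter (fun x => κ x = τ a))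
      have h2 := Finset.card_union_le R (S.image y)
      have h3 : (S.image y).card ≤ S.card := Finset.card_image_le
      have h4 := h a (mem_insert_self _ _)
      omega
    obtain ⟨p, hp⟩ := hex
    simp only [mem_sdiff, mem_filter, mem_univ, true_and, mem_union, mem_image, not_or,
      not_exists, not_and] at hp
    obtain ⟨hp1, hp2, hp3⟩ := hp
    have hup : ∀ i ∈ S, Function.update y a p i = y i := fun i hi =>
      Function.update_of_ne (by rintro rfl; exact ha hi) _ _
    refine ⟨Function.update y a p, ?_, ?_⟩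
    · intro i hi j hj hij
      simp only [coe_insert, Set.mem_insert_iff, mem_coe] at hi hj
      rcases hi with rfl | hi <;> rcases hj with rfl | hj
      · rfl
      · rw [Function.update_self, hup j hj] at hij
        exact absurd hij.symm (hp3 j hj)
      · rw [Function.update_self, hup i hi] at hij
        exact absurd hij (hp3 i hi)
      · rw [hup i hi, hup j hj] at hij
        exact hy1 hi hj hij
    · intro i hi
      rw [Finset.mem_insert] at hi
      rcases hi with rfl | hi
      · rw [Function.update_self]; exact ⟨hp2, hp1⟩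
      · rw [hup i hi]; exact hy2 i hi

/-! ### Sequences of bad instances -/

/-- A divisor-indexed induction for stage 1. -/
lemma stage1_all (hk : 0 < k) (U : Ultrafilter ℕ) (I : ℕ → Inst k) {a b ds : ℕ} (hb : 0 < b)
    (hsep : ∀ d, ds ∣ d → d ∣ k → d ≠ ds → ∀ F, ∀ᶠ c in (U : Filter ℕ), NonTwins (I c).c d F)
    (hcov : ∀ ν, ∀ᶠ c in (U : Filter ℕ), ¬ ∃ Z : Finset (Fin (I c).n), Z.card ≤ ν ∧
      ∀ u v, (I c).A u v ≠ 0 → u ∈ Z ∨ v ∈ Z)
    (Gd : ∀ c, Frame (I c) a b → Prop)
    (hGC : ∀ᶠ c in (U : Filter ℕ), ∀ F : Frame (I c) a b, Gd c F →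
      ∃ C : Fin b → Fin b → ℤ, ∀ x y, x ≠ y → (I c).c x y ≡ C (F.κ x) (F.κ y) [ZMOD ds])
    (H0 : ∀ w, ∀ᶠ c in (U : Filter ℕ), ∀ F : Frame (I c) a b, Gd c F → Sol F ds w) :
    ∀ d, ds ∣ d → d ∣ k → ∀ w, ∀ᶠ c in (U : Filter ℕ), ∀ F : Frame (I c) a b,
      Gd c F → Sol F d w := by
  intro d
  induction d using Nat.strong_induction_on with
  | _ d ih =>
    intro hds hdk w
    by_cases hne : d = ds
    · subst hne; exact H0 w
    have hd0 : 0 < d := Nat.pos_of_dvd_of_pos hdk hk
    set m := 16 * k ^ 3 with hm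
    have hm2 : 2 * k ∣ m := ⟨8 * k ^ 2, by rw [hm]; ring⟩
    have hIH : ∀ᶠ c in (U : Filter ℕ), ∀ d' ∈ d.divisors, ds ∣ d' → d' ≠ d →
        ∀ F : Frame (I c) a b, Gd c F → Sol F d' (w + 2 * m) := by
      rw [Filter.eventually_all_finset]
      intro d' hd'
      rw [Nat.mem_divisors] at hd'
      by_cases h1 : ds ∣ d'
      · by_cases h2 : d' = d
        · exact Filter.Eventually.of_forall fun c _ h => absurd h2 h
        · have h3 : d' < d := lt_of_le_of_ne (Nat.le_of_dvd hd0 hd'.1) h2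
          filter_upwards [ih d' h3 h1 (hd'.1.trans hdk) (w + 2 * m)] with c hc _ _
          exact hc
      · exact Filter.Eventually.of_forall fun c h => absurd h h1
    have : Nonempty (Fin b) := ⟨⟨0, hb⟩⟩
    obtain ⟨FF, hFF⟩ := exists_gadgets_avoid k m (2 * w) hk (Fin b)
    filter_upwards [hIH, hsep d hds hdk hne FF, hcov (2 * (a * a * m) + w), hGC] with
      c h1 h2 h3 h4 F hF
    obtain ⟨C, hC⟩ := h4 F hF
    apply sol_stage1 hk F d ds w m hdk hds le_rfl hm2 C hC
    · intro R hR
      obtain ⟨Z, hZ, hZsep⟩ := h2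
      obtain ⟨z, δ, hδ, hz, hz1, hz2, hz3⟩ := hFF _ (I c).c (I c).c_symm (I c).c_range F.κ d R hR
        Z hZ hZsep
      exact ⟨z, δ, hδ.1, hz, hz1, hz2, hz3⟩
    · exact exists_hmat (I c) F.cl w m h3
    · intro d' hd1 hd2 hd3
      exact h1 d' (Nat.mem_divisors.mpr ⟨hd2, hd0.ne'⟩) hd1 hd3 F hF

/-- Case of a graph of bounded type. -/
lemma caseI (hk : 0 < k) (U : Ultrafilter ℕ) (hU : (U : Filter ℕ) ≤ Filter.atTop)
    (I : ℕ → Inst k) (hN : ∀ c, (I c).n + c ≤ (I c).N) {a b ds : ℕ} (hb : 0 < b) (hdsk : ds ∣ k)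
    (hsep : ∀ d, ds ∣ d → d ∣ k → d ≠ ds → ∀ F, ∀ᶠ c in (U : Filter ℕ), NonTwins (I c).c d F)
    (hcov : ∀ ν, ∀ᶠ c in (U : Filter ℕ), ¬ ∃ Z : Finset (Fin (I c).n), Z.card ≤ ν ∧
      ∀ u v, (I c).A u v ≠ 0 → u ∈ Z ∨ v ∈ Z)
    (hcl : ∀ᶠ c in (U : Filter ℕ), ClassStruct (I c).c ds b)
    (hA : ∀ᶠ c in (U : Filter ℕ), ClassStruct (I c).A 0 a) :
    ∀ᶠ c in (U : Filter ℕ), (I c).Solved := by
  classical
  have hlarge : ∀ M, ∀ᶠ c in (U : Filter ℕ), M ≤ c := fun M => hU (Filter.eventually_ge_atTop M)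
  let Gd : ∀ c, Frame (I c) a b → Prop := fun c F =>
    ∃ (cl : Fin (I c).n → Fin a) (CA : Fin a → Fin a → ℤ)
      (hA : ∀ u v, u ≠ v → (I c).A u v = CA (cl u) (cl v))
      (κ : Fin (I c).N → Fin b) (C : Fin b → Fin b → ℤ)
      (hC : ∀ x y, x ≠ y → (I c).c x y ≡ C (κ x) (κ y) [ZMOD ds]) (γ : ℤ),
      F = frameI (I c) hdsk cl CA hA κ C hC γ
  have hmain := stage1_all hk U I hb hsep hcov Gd
    (Filter.Eventually.of_forall fun c F ⟨cl, CA, hA, κ, C, hC, γ, hF⟩ => by
      subst hF; exact ⟨C, hC⟩)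
    (fun w => by
      filter_upwards [hlarge (w + b * (2 * k))] with c hc F hF
      obtain ⟨cl, CA, hA, κ, C, hC, γ, rfl⟩ := hF
      apply sol_base hk _ ds w (by have := hN c; omega)
      intro φ W hst
      have hinv := hst.inv
      simp only [frameI] at hinv
      rw [wtOn_univ] at hinv
      rw [← Int.modEq_zero_iff_dvd]
      refine hinv.trans ?_
      rw [Int.modEq_zero_iff_dvd]
      apply Dvd.dvd.mul_left
      have h2 : ((2 * ds : ℕ) : ℤ) ∣ ((2 * k : ℕ) : ℤ) := by
        exact_mod_cast Nat.mul_dvd_mul_left 2 hdsk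
      exact h2.trans (I c).div)
    k hdsk dvd_rfl (a * (2 * k))
  obtain ⟨M, hM⟩ := exists_mono k (a * (2 * k)) hk
  filter_upwards [hmain, hcl, hA, hlarge (M + 1)] with c h1 h2 h3 h4
  obtain ⟨κ, C, hC⟩ := h2
  obtain ⟨cl, CA, hCA⟩ := h3
  have hN' := hN c
  obtain ⟨Q, γ, hQ, hγ⟩ := hM (I c) (by omega)
  obtain ⟨P, hZP, hPc, hPres⟩ := exists_residual (2 * k) (by omega) cl ∅
  rw [Finset.card_empty, zero_add] at hPc
  obtain ⟨φ0, hinj, hφ0⟩ := exists_place Q hQ ⟨0, by omega⟩ P hPc
  have hmono : ∀ u ∈ P, ∀ v ∈ P, u ≠ v → (I c).c (φ0 u) (φ0 v) = γ := by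
    intro u hu v hv huv
    obtain ⟨i, hi⟩ := hφ0 u hu
    obtain ⟨j, hj⟩ := hφ0 v hv
    rw [hi, hj]
    apply hγ
    rintro rfl
    exact huv (hinj hu hv (hi.trans hj.symm))
  have hCA' : ∀ u v, u ≠ v → (I c).A u v = CA (cl u) (cl v) := by
    intro u v huv
    have := hCA u v huv
    simpa [Int.modEq_zero_iff] using this
  have hst : St (frameI (I c) hdsk cl CA hCA' κ C hC γ) P φ0 ∅ := by
    refine ⟨hinj, fun u _ => Finset.notMem_empty _, Finset.empty_subset _, hPres, ?_⟩
    have : wtOn (I c) P φ0 = γ * ∑ u ∈ P, ∑ v ∈ P, (I c).A u v := by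
      unfold wtOn
      rw [Finset.mul_sum]
      refine Finset.sum_congr rfl fun u hu => ?_
      rw [Finset.mul_sum]
      refine Finset.sum_congr rfl fun v hv => ?_
      by_cases huv : u = v
      · subst huv; rw [(I c).A_diag]; ring
      · rw [hmono u hu v hv huv]; ring
    simp only [frameI]
    rw [this]
  obtain ⟨φ', h5, _, _, h6⟩ := h1 _ ⟨cl, CA, hCA', κ, C, hC, γ, rfl⟩ P φ0 ∅ hst hPc (by simp)
  exact ⟨φ', h5, h6⟩

/-- Case of a graph of unbounded type. -/
lemma caseII (hk : 0 < k) (U : Ultrafilter ℕ) (hU : (U : Filter ℕ) ≤ Filter.atTop)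
    (I : ℕ → Inst k) (hN : ∀ c, (I c).n + c ≤ (I c).N) {b ds : ℕ} (hb : 0 < b) (hdsk : ds ∣ k)
    (hsep : ∀ d, ds ∣ d → d ∣ k → d ≠ ds → ∀ F, ∀ᶠ c in (U : Filter ℕ), NonTwins (I c).c d F)
    (hcov : ∀ ν, ∀ᶠ c in (U : Filter ℕ), ¬ ∃ Z : Finset (Fin (I c).n), Z.card ≤ ν ∧
      ∀ u v, (I c).A u v ≠ 0 → u ∈ Z ∨ v ∈ Z)
    (hcl : ∀ᶠ c in (U : Filter ℕ), ClassStruct (I c).c ds b)
    (hA : ∀ F, ∀ᶠ c in (U : Filter ℕ), NonTwins (I c).A 0 F) :
    ∀ᶠ c in (U : Filter ℕ), (I c).Solved := by
  classical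
  have hlarge : ∀ M, ∀ᶠ c in (U : Filter ℕ), M ≤ c := fun M => hU (Filter.eventually_ge_atTop M)
  -- choose class structures
  have hex : ∀ c, ∃ (κ : Fin (I c).N → Fin b) (C : Fin b → Fin b → ℤ),
      ClassStruct (I c).c ds b → (∀ s t, C s t = C t s) ∧
        ∀ x y, x ≠ y → (I c).c x y ≡ C (κ x) (κ y) [ZMOD ds] := by
    intro c
    by_cases h : ClassStruct (I c).c ds b
    · obtain ⟨κ, C, h1, h2⟩ := h.symm (I c).c_symm
      exact ⟨κ, C, fun _ => ⟨h1, h2⟩⟩
    · exact ⟨fun _ => ⟨0, hb⟩, fun _ _ => 0, fun h' => absurd h' h⟩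
  choose κ C hκC using hex
  -- large classes
  let Large : Fin b → Prop := fun t => ∀ F : ℕ, ∀ᶠ c in (U : Filter ℕ),
    F ≤ ((univ : Finset (Fin (I c).N)).filter (fun x => κ c x = t)).card
  let Lg : Finset (Fin b) := univ.filter Large
  have hLg : ∀ t, t ∈ Lg ↔ Large t := fun t => by simp [Lg]
  have hsmall : ∀ t, ∃ F : ℕ, t ∉ Lg → ∀ᶠ c in (U : Filter ℕ),
      ((univ : Finset (Fin (I c).N)).filter (fun x => κ c x = t)).card ≤ F := by
    intro t
    by_cases ht : t ∈ Lg
    · exact ⟨0, fun h => absurd ht h⟩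
    · have h1 : ¬ Large t := fun h => ht ((hLg t).mpr h)
      simp only [Large] at h1
      push Not at h1
      obtain ⟨F, hF⟩ := h1
      refine ⟨F, fun _ => ?_⟩
      filter_upwards [hF] with c hc
      omega
  choose Fs hFs using hsmall
  set Wb : ℕ := ∑ t, Fs t with hWb
  have hW0 : ∀ᶠ c in (U : Filter ℕ),
      ((univ : Finset (Fin (I c).N)).filter (fun x => κ c x ∉ Lg)).card ≤ Wb := by
    have h1 : ∀ᶠ c in (U : Filter ℕ), ∀ t ∈ (univ : Finset (Fin b)), t ∉ Lg →
        ((univ : Finset (Fin (I c).N)).filter (fun x => κ c x = t)).card ≤ Fs t := by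
      rw [Filter.eventually_all_finset]
      intro t _
      by_cases ht : t ∈ Lg
      · exact Filter.Eventually.of_forall fun c h => absurd ht h
      · filter_upwards [hFs t ht] with c hc _
        exact hc
    filter_upwards [h1] with c hc
    have e1 : (univ : Finset (Fin (I c).N)).filter (fun x => κ c x ∉ Lg) ⊆
        (univ.filter (fun t => t ∉ Lg)).biUnion
          (fun t => (univ : Finset (Fin (I c).N)).filter (fun x => κ c x = t)) := by
      intro x hx
      simp only [mem_filter, mem_univ, true_and] at hx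
      simp only [mem_biUnion, mem_filter, mem_univ, true_and]
      exact ⟨κ c x, hx, rfl⟩
    refine (Finset.card_le_card e1).trans (Finset.card_biUnion_le.trans ?_)
    calc ∑ t ∈ univ.filter (fun t => t ∉ Lg),
          ((univ : Finset (Fin (I c).N)).filter (fun x => κ c x = t)).card
        ≤ ∑ t ∈ univ.filter (fun t => t ∉ Lg), Fs t := by
          apply Finset.sum_le_sum
          intro t ht
          rw [Finset.mem_filter] at ht
          exact hc t (mem_univ _) ht.2
      _ ≤ Wb := Finset.sum_le_sum_of_subset (Finset.filter_subset _ _)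
  obtain ⟨t0, ht0⟩ : Lg.Nonempty := by
    by_contra hcon
    rw [Finset.not_nonempty_iff_eq_empty] at hcon
    obtain ⟨c, h1, h2⟩ := (hW0.and (hlarge (Wb + 1))).exists
    rw [hcon] at h1
    simp only [notMem_empty, not_false_eq_true, filter_true, card_univ, Fintype.card_fin] at h1
    have := hN c
    omega
  have hLgc : ∀ F : ℕ, ∀ᶠ c in (U : Filter ℕ), ∀ t ∈ Lg,
      F ≤ ((univ : Finset (Fin (I c).N)).filter (fun x => κ c x = t)).card := by
    intro F
    rw [Filter.eventually_all_finset]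
    intro t ht
    exact (hLg t).mp ht F
  let FL : ∀ c, Frame (I c) k b := fun c => frameL (I c) hk (κ c) Lg t0
  -- stage 2
  have hst2 : ∀ d, d ∣ ds → ∀ w, ∀ᶠ c in (U : Filter ℕ), Sol (FL c) d w := by
    intro d
    induction d using Nat.strong_induction_on with
    | _ d ih =>
      intro hd w
      have hdk : d ∣ k := hd.trans hdsk
      have hd0 : 0 < d := Nat.pos_of_dvd_of_pos hdk hk
      set m := 16 * k ^ 3 with hm
      have hm2 : 2 * k ∣ m := ⟨8 * k ^ 2, by rw [hm]; ring⟩
      have hIH : ∀ᶠ c in (U : Filter ℕ), ∀ d' ∈ d.divisors, d' ≠ d →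
          Sol (FL c) d' (w + 4 * m) := by
        rw [Filter.eventually_all_finset]
        intro d' hd'
        rw [Nat.mem_divisors] at hd'
        by_cases h2 : d' = d
        · exact Filter.Eventually.of_forall fun c h => absurd h2 h
        · have h3 : d' < d := lt_of_le_of_ne (Nat.le_of_dvd hd0 hd'.1) h2
          filter_upwards [ih d' h3 (hd'.1.trans hd) (w + 4 * m)] with c hc _
          exact hc
      have : Nonempty (Fin k) := ⟨⟨0, hk⟩⟩
      obtain ⟨FF, hFF⟩ := exists_gadgets_avoid 2 m w two_pos (Fin k)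
      filter_upwards [hIH, hA FF, hLgc (4 * m + 2 * w), hcl, hlarge (w + b * (2 * k))] with
        c h1 h2 h3 h4 h5
      have hNc := hN c
      obtain ⟨hCs, hC⟩ := hκC c h4
      by_cases hlin : ∀ s ∈ Lg, ∀ t ∈ Lg,
          (d : ℤ) ∣ C c s t - C c s t0 - C c t0 t + C c t0 t0
      · exact sol_base hk (FL c) d w (by omega) fun φ W hst =>
          frameL_final (I c) hk (κ c) Lg t0 d ds hd hdsk (C c) hCs hC hlin φ W hst
      · push Not at hlin
        obtain ⟨s, hs, t, ht, hD⟩ := hlin
        apply sol_stage2 hk (FL c) d w m hdk le_rfl hm2 _ _ hD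
        · intro R hR
          let τ : Fin m × Fin 4 → Fin b := fun p => ![s, t0, t, t0] p.2
          have hτ : ∀ p, τ p ∈ Lg := by
            rintro ⟨g, i⟩
            simp only [τ]
            fin_cases i
            · exact hs
            · exact ht0
            · exact ht
            · exact ht0
          obtain ⟨y, hy1, hy2⟩ := exists_in_classes (κ c) τ (⟨0, by
              have := Nat.mul_pos hb (show 0 < 2 * k by omega); omega⟩ : Fin (I c).N) R
            (univ : Finset (Fin m × Fin 4)) (fun i _ => by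
              have h6 := h3 (τ i) (hτ i)
              have h7 : (univ : Finset (Fin m × Fin 4)).card = m * 4 := by simp
              omega)
          have hyinj : Function.Injective y := fun p q h => hy1 (by simp) (by simp) h
          refine ⟨fun g i => y (g, i), ?_, ?_, ?_, ?_⟩
          · intro g i g' i' h
            have := hyinj h
            simpa using this
          · intro g i
            exact (hy2 (g, i) (mem_univ _)).1
          · intro g g' i
            have e1 := (hy2 (g, i) (mem_univ _)).2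
            have e2 := (hy2 (g', i) (mem_univ _)).2
            exact e1.trans e2.symm
          · intro g
            have k0 : κ c (y (g, 0)) = s := (hy2 (g, 0) (mem_univ _)).2
            have k1 : κ c (y (g, 1)) = t0 := (hy2 (g, 1) (mem_univ _)).2
            have k2 : κ c (y (g, 2)) = t := (hy2 (g, 2) (mem_univ _)).2
            have k3 : κ c (y (g, 3)) = t0 := (hy2 (g, 3) (mem_univ _)).2
            have hne : ∀ i j : Fin 4, i ≠ j → y (g, i) ≠ y (g, j) := by
              intro i j hij h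
              have := hyinj h
              simp only [Prod.mk.injEq, true_and] at this
              exact hij this
            have hdd : (d : ℤ) ∣ (ds : ℤ) := by exact_mod_cast hd
            have e1 := (hC _ _ (hne 0 2 (by decide))).of_dvd hdd
            have e2 := (hC _ _ (hne 0 3 (by decide))).of_dvd hdd
            have e3 := (hC _ _ (hne 1 2 (by decide))).of_dvd hdd
            have e4 := (hC _ _ (hne 1 3 (by decide))).of_dvd hdd
            rw [k0, k2] at e1
            rw [k0, k3] at e2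
            rw [k1, k2] at e3
            rw [k1, k3] at e4
            exact ((e1.sub e2).sub e3).add e4
        · intro d' hd1 hd2
          exact h1 d' (Nat.mem_divisors.mpr ⟨hd1, hd0.ne'⟩) hd2
        · intro P hP
          obtain ⟨Z, hZ, hZsep⟩ := h2
          obtain ⟨z, δ, hδ, hz, hz1, hz2, hz3⟩ := hFF _ (I c).A (I c).A_symm (I c).A_range
            (FL c).cl 0 P hP Z hZ hZsep
          refine ⟨z, δ, ?_, hz, hz1, hz2, hz3⟩
          obtain ⟨hδ1, hδ2, hδ3⟩ := hδ
          rw [zero_dvd_iff] at hδ1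
          push_cast at hδ2 hδ3
          omega
  -- stage 1
  have hmain := stage1_all hk U I hb hsep hcov (fun c F => F = FL c)
    (by
      filter_upwards [hcl] with c hc F hF
      subst hF
      exact ⟨C c, (hκC c hc).2⟩)
    (fun w => by
      filter_upwards [hst2 ds dvd_rfl w] with c hc F hF
      subst hF; exact hc)
    k hdsk dvd_rfl (k * (2 * k) + Wb)
  filter_upwards [hmain, hW0, hLgc (k * (2 * k)), hlarge 1] with c h1 h2 h3 h4
  have hNc := hN c
  obtain ⟨T, hT, hTc⟩ := Finset.exists_subset_card_eq (h3 t0 ht0)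
  let Q : Fin (k * (2 * k)) ↪o Fin (I c).N := T.orderEmbOfFin hTc
  have hQt : ∀ i, κ c (Q i) = t0 := by
    intro i
    have := hT (Finset.orderEmbOfFin_mem T hTc i)
    rw [Finset.mem_filter] at this
    exact this.2
  obtain ⟨P, hZP, hPc, hPres⟩ := exists_residual (2 * k) (by omega) (FL c).cl ∅
  rw [Finset.card_empty, zero_add] at hPc
  obtain ⟨φ0, hinj, hφ0⟩ := exists_place Q Q.injective ⟨0, by omega⟩ P hPc
  have hκφ : ∀ u ∈ P, κ c (φ0 u) = t0 := by
    intro u hu
    obtain ⟨i, hi⟩ := hφ0 u hu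
    rw [hi, hQt]
  have hst : St (FL c) P φ0 (FL c).W0 := by
    refine ⟨hinj, ?_, Finset.Subset.refl _, hPres, ?_⟩
    · intro u hu
      simp only [FL, frameL, mem_filter, mem_univ, true_and, not_not]
      rw [hκφ u hu]; exact ht0
    · simp only [FL, frameL]
      intro t ht
      have : P.filter (fun u => κ c (φ0 u) = t) = ∅ := by
        apply Finset.filter_false_of_mem
        intro u hu h
        exact ht (h.symm.trans (hκφ u hu))
      rw [this]; simp
  obtain ⟨φ', h5, _, _, h6⟩ := h1 _ rfl P φ0 _ hst (by omega) (by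
    have h7 : (FL c).W0.card ≤ Wb := h2
    omega)
  exact ⟨φ', h5, h6⟩

/-- **Main theorem**, in terms of instances. -/
theorem main (hk : 0 < k) : ∃ c : ℕ, ∀ I : Inst k, I.n + c ≤ I.N → I.Solved := by
  classical
  by_contra hcon
  push Not at hcon
  choose I hN hbad using hcon
  set U : Ultrafilter ℕ := Filter.hyperfilter ℕ with hUdef
  have hU : (U : Filter ℕ) ≤ Filter.atTop := Nat.hyperfilter_le_atTop
  have hlarge : ∀ M, ∀ᶠ c in (U : Filter ℕ), M ≤ c := fun M => hU (Filter.eventually_ge_atTop M)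
  have hcov : ∀ ν, ∀ᶠ c in (U : Filter ℕ), ¬ ∃ Z : Finset (Fin (I c).n), Z.card ≤ ν ∧
      ∀ u v, (I c).A u v ≠ 0 → u ∈ Z ∨ v ∈ Z := by
    intro ν
    obtain ⟨c0, hc0⟩ := caseV k ν hk
    filter_upwards [hlarge c0] with c hc h
    exact hbad c (hc0 (I c) (by have := hN c; omega) h)
  let Bd : ℕ → Prop := fun d => ∃ B, ∀ᶠ c in (U : Filter ℕ), ClassStruct (I c).c d B
  have hBd1 : Bd 1 := ⟨1, Filter.Eventually.of_forall fun c =>
    ⟨fun _ => 0, fun _ _ => 0, fun x y _ => by
      rw [Nat.cast_one]; exact Int.modEq_one⟩⟩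
  obtain ⟨ds, hds, hmax⟩ := Finset.exists_max_image (k.divisors.filter Bd) id
    ⟨1, Finset.mem_filter.mpr ⟨Nat.one_mem_divisors.mpr hk.ne', hBd1⟩⟩
  rw [Finset.mem_filter, Nat.mem_divisors] at hds
  obtain ⟨⟨hdsk, _⟩, b, hb⟩ := hds
  have hds0 : 0 < ds := Nat.pos_of_dvd_of_pos hdsk hk
  have hb0 : 0 < b := by
    obtain ⟨c, h1, h2⟩ := (hb.and (hlarge 1)).exists
    obtain ⟨κ, _, _⟩ := h1
    have := hN c
    have h3 := (κ ⟨0, by omega⟩).2
    omega
  have hsep : ∀ d, ds ∣ d → d ∣ k → d ≠ ds → ∀ F,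
      ∀ᶠ c in (U : Filter ℕ), NonTwins (I c).c d F := by
    intro d h1 h2 h3 F
    have hd0 : 0 < d := Nat.pos_of_dvd_of_pos h2 hk
    have h4 : ¬ Bd d := by
      intro h
      have h5 := hmax d (Finset.mem_filter.mpr ⟨Nat.mem_divisors.mpr ⟨h2, hk.ne'⟩, h⟩)
      have h6 := Nat.le_of_dvd hd0 h1
      simp only [id] at h5
      omega
    simp only [Bd] at h4
    push Not at h4
    have h5 := h4 F
    filter_upwards [h5] with c hc
    by_contra h6
    exact hc (classStruct_of_not_nonTwins _ (I c).c_symm _ _ h6)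
  have hfin : ∀ᶠ c in (U : Filter ℕ), (I c).Solved := by
    by_cases hAb : ∃ a, ∀ᶠ c in (U : Filter ℕ), ClassStruct (I c).A 0 a
    · obtain ⟨a, ha⟩ := hAb
      exact caseI hk U hU I hN hb0 hdsk hsep hcov hb ha
    · push Not at hAb
      refine caseII hk U hU I hN hb0 hdsk hsep hcov hb fun F => ?_
      have h5 := hAb F
      filter_upwards [h5] with c hc
      by_contra h6
      exact hc (classStruct_of_not_nonTwins _ (I c).A_symm _ _ h6)
  obtain ⟨c, hc⟩ := hfin.exists
  exact hbad c hc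

end Pool.Agent.Lib.MP_ab035a_co
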