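import Pool.Agent.Lib.MP_ab035a_co.Main

set_option autoImplicit false

namespace Pool.Agent.Lib.MP_ab035a_co.OwnAux

open Finset in
/-- Ordered double sums over adjacent pairs are twice the sums over edges. -/
lemma sum_adj (n : ℕ) (G : SimpleGraph (Fin n)) [DecidableRel G.Adj] (F : Sym2 (Fin n) → ℤ) :
    ∑ u, ∑ v, (if G.Adj u v then F s(u, v) else 0) = 2 * ∑ e ∈ G.edgeFinset, F e := by
  classical
  rw [← Finset.sum_product', ← Finset.sum_filter, Finset.mul_sum,
    ← Finset.sum_fiberwise_of_maps_to (t := G.edgeFinset)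
      (g := fun p : Fin n × Fin n => s(p.1, p.2))]
  · refine Finset.sum_congr rfl fun e he => ?_
    induction e using Sym2.ind with
    | _ a b =>
      rw [SimpleGraph.mem_edgeFinset, SimpleGraph.mem_edgeSet] at he
      have h : filter (fun p : Fin n × Fin n => s(p.1, p.2) = s(a, b))
          (filter (fun p : Fin n × Fin n => G.Adj p.1 p.2) (univ ×ˢ univ)) =
          {(a, b), (b, a)} := by
        ext ⟨x, y⟩
        simp only [mem_filter, mem_product, mem_univ, true_and, Sym2.eq_iff, mem_insert,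
          mem_singleton, Prod.mk.injEq]
        constructor
        · rintro ⟨_, h⟩; exact h
        · rintro (⟨rfl, rfl⟩ | ⟨rfl, rfl⟩)
          · exact ⟨he, Or.inl ⟨rfl, rfl⟩⟩
          · exact ⟨he.symm, Or.inr ⟨rfl, rfl⟩⟩
      rw [h, Finset.sum_pair (by
        intro h'
        rw [Prod.mk.injEq] at h'
        exact he.ne h'.1)]
      rw [Sym2.eq_swap (a := b) (b := a)]
      ring
  · intro p hp
    rw [Finset.mem_filter] at hp
    rw [SimpleGraph.mem_edgeFinset, SimpleGraph.mem_edgeSet]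
    exact hp.2

theorem placement (k : ℕ) (hk : 0 < k) : ∃ c : ℕ, ∀ n N : ℕ, n + c ≤ N → ∀ (G : SimpleGraph (Fin n))
      [DecidableRel G.Adj], k ∣ G.edgeFinset.card → ∀ f : Sym2 (Fin N) → ZMod k,
        ∃ φ : Fin n ↪ Fin N, ∑ e ∈ G.edgeFinset, f (Sym2.map φ e) = 0 := by
  obtain ⟨c, hc⟩ := Pool.Agent.Lib.MP_ab035a_co.main hk
  refine ⟨c, fun n N hN G _ hG f => ?_⟩
  have : NeZero k := ⟨hk.ne'⟩
  obtain ⟨φ, hφ, hdvd⟩ := hc
    { n := n
      N := N
      A := fun u v => if G.Adj u v then 1 else 0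
      c := fun x y => ((f s(x, y)).val : ℤ)
      A_symm := fun u v => by simp only [G.adj_comm]
      A_diag := fun u => by simp
      A_range := fun u v => by split_ifs <;> simp
      c_symm := fun x y => by rw [Sym2.eq_swap]
      c_range := fun x y => ⟨by positivity, by exact_mod_cast ZMod.val_lt _⟩
      div := by
        rw [sum_adj n G (fun _ => 1)]
        simp only [Finset.sum_const, nsmul_eq_mul, mul_one]
        exact_mod_cast Nat.mul_dvd_mul_left 2 hG } hN
  refine ⟨⟨φ, hφ⟩, ?_⟩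
  simp only [Pool.Agent.Lib.MP_ab035a_co.wt] at hdvd
  have e1 : ∑ u, ∑ v, (if G.Adj u v then (1 : ℤ) else 0) * ((f s(φ u, φ v)).val : ℤ) =
      2 * ∑ e ∈ G.edgeFinset, ((f (Sym2.map φ e)).val : ℤ) := by
    rw [← sum_adj n G (fun e => ((f (Sym2.map φ e)).val : ℤ))]
    refine Finset.sum_congr rfl fun u _ => Finset.sum_congr rfl fun v _ => ?_
    split_ifs <;> simp
  rw [e1] at hdvd
  push_cast at hdvd
  have h2 : (k : ℤ) ∣ ∑ e ∈ G.edgeFinset, ((f (Sym2.map φ e)).val : ℤ) :=
    Int.dvd_of_mul_dvd_mul_left two_ne_zero hdvd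
  have h3 : ((∑ e ∈ G.edgeFinset, ((f (Sym2.map φ e)).val : ℤ) : ℤ) : ZMod k) = 0 :=
    (ZMod.intCast_zmod_eq_zero_iff_dvd _ _).mpr h2
  rw [Int.cast_sum] at h3
  rw [← h3]
  refine Finset.sum_congr rfl fun e _ => ?_
  simp

end Pool.Agent.Lib.MP_ab035a_co.OwnAux
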