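import Mathlib

/-!
# Finite Ramsey theorem for pairs and the unavoidable pattern lemma
-/

set_option autoImplicit false

namespace Pool.Agent.Lib.MP_ab035a_co

open Finset

open Classical in
lemma exists_color_class {C α : Type*} [Fintype C] [Nonempty C]
    (S : Finset α) (c : α → C) (M : ℕ) (h : Fintype.card C * M ≤ S.card) :
    ∃ e : C, M ≤ (S.filter (fun x => c x = e)).card := by
  obtain ⟨e, _, he⟩ := Finset.exists_le_card_fiber_of_mul_le_card_of_maps_to
    (s := S) (t := (Finset.univ : Finset C)) (f := c) (n := M)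
    (fun a _ => Finset.mem_univ _) Finset.univ_nonempty (by simpa using h)
  exact ⟨e, he⟩

/-- Sequences whose pair colour depends only on the smaller index. -/
lemma exists_prehom (C : Type*) [Fintype C] [Nonempty C] (s : ℕ) :
    ∃ M : ℕ, ∀ (S : Finset ℕ), M ≤ S.card → ∀ c : ℕ → ℕ → C,
      ∃ (a : ℕ → ℕ) (e : ℕ → C), (∀ i < s, a i ∈ S) ∧
        (∀ i j, i < j → j < s → a i < a j ∧ c (a i) (a j) = e i) := by
  classical
  induction s with
  | zero =>
    refine ⟨0, fun S _ c => ⟨fun _ => 0, fun _ => Classical.arbitrary C, ?_, ?_⟩⟩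
    · intro i hi; omega
    · intro i j _ hj; omega
  | succ s ih =>
    obtain ⟨M, hM⟩ := ih
    refine ⟨Fintype.card C * M + 1, fun S hS c => ?_⟩
    have hne : S.Nonempty := Finset.card_pos.mp (by omega)
    set a0 := S.min' hne with ha0
    have hcard : Fintype.card C * M ≤ (S.erase a0).card := by
      rw [Finset.card_erase_of_mem (S.min'_mem hne)]; omega
    obtain ⟨e0, he0⟩ := exists_color_class (S.erase a0) (c a0) M hcard
    obtain ⟨a, e, h1, h2⟩ := hM _ he0 c
    refine ⟨fun i => if i = 0 then a0 else a (i - 1), fun i => if i = 0 then e0 else e (i - 1),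
      ?_, ?_⟩
    · intro i hi
      by_cases h : i = 0
      · simp only [h, if_true]; exact S.min'_mem hne
      · simp only [h, if_false]
        have := h1 (i - 1) (by omega)
        rw [Finset.mem_filter] at this
        exact Finset.mem_of_mem_erase this.1
    · intro i j hij hj
      have hj0 : j ≠ 0 := by omega
      have hmem := h1 (j - 1) (by omega)
      rw [Finset.mem_filter] at hmem
      by_cases h : i = 0
      · simp only [h, hj0, if_true, if_false]
        refine ⟨?_, hmem.2⟩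
        have hle := S.min'_le _ (Finset.mem_of_mem_erase hmem.1)
        exact lt_of_le_of_ne hle (Finset.ne_of_mem_erase hmem.1).symm
      · simp only [h, hj0, if_false]
        exact h2 (i - 1) (j - 1) (by omega) (by omega)

/-- Ramsey's theorem for pairs (finitely many colours). -/
lemma ramsey (C : Type*) [Fintype C] [Nonempty C] (m : ℕ) :
    ∃ M : ℕ, ∀ c : ℕ → ℕ → C, ∃ (a : Fin m → ℕ) (e : C), StrictMono a ∧ (∀ i, a i < M) ∧
      ∀ i j, i < j → c (a i) (a j) = e := by
  classical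
  obtain ⟨M, hM⟩ := exists_prehom C (Fintype.card C * m + 1)
  refine ⟨M, fun c => ?_⟩
  obtain ⟨a, e, h1, h2⟩ := hM (Finset.range M) (by simp) c
  obtain ⟨col, hcol⟩ := exists_color_class (Finset.range (Fintype.card C * m)) e m (by simp)
  set T := (Finset.range (Fintype.card C * m)).filter (fun x => e x = col) with hT
  obtain ⟨T', hT', hcard⟩ := Finset.exists_subset_card_eq hcol
  let b : Fin m ↪o ℕ := T'.orderEmbOfFin hcard
  have hb : ∀ i, b i ∈ T := fun i => hT' (Finset.orderEmbOfFin_mem T' hcard i)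
  have hb1 : ∀ i, b i < Fintype.card C * m := fun i => by
    have := hb i
    rw [hT, Finset.mem_filter, Finset.mem_range] at this
    exact this.1
  have hb2 : ∀ i, e (b i) = col := fun i => by
    have := hb i
    rw [hT, Finset.mem_filter] at this
    exact this.2
  refine ⟨fun i => a (b i), col, ?_, ?_, ?_⟩
  · intro i j hij
    exact (h2 (b i) (b j) (b.strictMono hij) (by have := hb1 j; omega)).1
  · intro i
    have := h1 (b i) (by have := hb1 i; omega)
    simpa using this
  · intro i j hij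
    simp only
    rw [(h2 (b i) (b j) (b.strictMono hij) (by have := hb1 j; omega)).2, hb2]

/-- Selection: long sequences `x`, `y` where `y i` separates `x i` from all later `x j`. -/
lemma exists_select (C : Type*) [Fintype C] [Nonempty C] (s : ℕ) :
    ∃ F : ℕ, ∀ (X : Type) (f : X → X → C) (E : C → C → Prop)
      (_ : Equivalence E) (Z : Finset X), F ≤ Z.card →
      (∀ z ∈ Z, ∀ z' ∈ Z, z ≠ z' → ∃ w, w ≠ z ∧ w ≠ z' ∧ ¬ E (f z w) (f z' w)) →
      ∀ _ : X,
      ∃ (x y : ℕ → X) (c : ℕ → C), (∀ i < s, x i ∈ Z) ∧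
        (∀ i < s, x i ≠ y i ∧ ¬ E (f (x i) (y i)) (c i) ∧
          ∃ z ∈ Z, ∃ z' ∈ Z, f z (y i) ≠ f z' (y i)) ∧
        (∀ i j, i < j → j < s → f (x j) (y i) = c i ∧ x j ≠ y i ∧ x j ≠ x i ∧ y j ≠ y i) := by
  classical
  induction s with
  | zero =>
    refine ⟨0, fun X f E hE Z _ _ x0 => ⟨fun _ => x0, fun _ => x0,
      fun _ => Classical.arbitrary C, ?_, ?_, ?_⟩⟩
    · intro i hi; omega
    · intro i hi; omega
    · intro i j _ hj; omega
  | succ s ih =>
    obtain ⟨F, hF⟩ := ih
    refine ⟨Fintype.card C * F + 2, fun X f E hE Z hZ hsep x0 => ?_⟩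
    obtain ⟨z, hz, z', hz', hne⟩ := Finset.one_lt_card.mp (show 1 < Z.card by omega)
    obtain ⟨w, hwz, hwz', hw⟩ := hsep z hz z' hz' hne
    have hcard : Fintype.card C * F ≤ (Z.erase w).card := by
      have := Finset.pred_card_le_card_erase (s := Z) (a := w)
      omega
    obtain ⟨c0, hc0⟩ := exists_color_class (Z.erase w) (fun v => f v w) F hcard
    set Z' := (Z.erase w).filter (fun v => f v w = c0) with hZ'
    have hsub : ∀ v ∈ Z', v ∈ Z ∧ v ≠ w ∧ f v w = c0 := by
      intro v hv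
      rw [hZ', Finset.mem_filter, Finset.mem_erase] at hv
      exact ⟨hv.1.2, hv.1.1, hv.2⟩
    obtain ⟨x, y, c, h1, h2, h3⟩ := hF X f E hE Z' hc0
      (fun a ha b hb hab => hsep a (hsub a ha).1 b (hsub b hb).1 hab) x0
    -- choose x0'
    obtain ⟨x1, hx1Z, hx1w, hx1⟩ : ∃ x1 ∈ Z, x1 ≠ w ∧ ¬ E (f x1 w) c0 := by
      by_cases h : E (f z w) c0
      · refine ⟨z', hz', hwz'.symm, fun h' => hw (hE.trans h (hE.symm h'))⟩
      · exact ⟨z, hz, hwz.symm, h⟩
    refine ⟨fun i => if i = 0 then x1 else x (i - 1), fun i => if i = 0 then w else y (i - 1),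
      fun i => if i = 0 then c0 else c (i - 1), ?_, ?_, ?_⟩
    · intro i hi
      by_cases h : i = 0
      · simp only [h, if_true]; exact hx1Z
      · simp only [h, if_false]; exact (hsub _ (h1 (i - 1) (by omega))).1
    · intro i hi
      by_cases h : i = 0
      · simp only [h, if_true]
        refine ⟨hx1w, hx1, z, hz, z', hz', fun he => hw ?_⟩
        rw [he]; exact hE.refl _
      · simp only [h, if_false]
        obtain ⟨a1, a2, b, hb, b', hb', hbb⟩ := h2 (i - 1) (by omega)
        exact ⟨a1, a2, b, (hsub b hb).1, b', (hsub b' hb').1, hbb⟩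
    · intro i j hij hj
      have hj0 : j ≠ 0 := by omega
      by_cases h : i = 0
      · simp only [h, hj0, if_true, if_false]
        have hxj := hsub _ (h1 (j - 1) (by omega))
        refine ⟨hxj.2.2, hxj.2.1, ?_, ?_⟩
        · intro he
          apply hx1
          rw [← he, hxj.2.2]; exact hE.refl _
        · intro he
          obtain ⟨_, _, b, hb, b', hb', hbb⟩ := h2 (j - 1) (by omega)
          apply hbb
          rw [he, (hsub b hb).2.2, (hsub b' hb').2.2]
      · simp only [h, hj0, if_false]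
        exact h3 (i - 1) (j - 1) (by omega) (by omega)

/-- The unavoidable pattern. -/
structure Pattern {X C Λ : Type*} (f : X → X → C) (E : C → C → Prop) (lam : X → Λ) {m : ℕ}
    (x y : Fin m → X) : Prop where
  injx : Function.Injective x
  injy : Function.Injective y
  disj : ∀ i j, x i ≠ y j
  pat : ∃ α β γ κ μ : C, ¬ E β γ ∧ (∀ i j, i < j → f (x i) (y j) = α) ∧
    (∀ i, f (x i) (y i) = β) ∧ (∀ i j, i < j → f (x j) (y i) = γ) ∧
    (∀ i j, i < j → f (x i) (x j) = κ) ∧ (∀ i j, i < j → f (y i) (y j) = μ)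
  lamx : ∀ i j, lam (x i) = lam (x j)
  lamy : ∀ i j, lam (y i) = lam (y j)

lemma exists_pattern (C Λ : Type) [Fintype C] [Nonempty C] [Fintype Λ]
    [Nonempty Λ] (m : ℕ) :
    ∃ F : ℕ, ∀ (X : Type) (f : X → X → C) (lam : X → Λ) (E : C → C → Prop)
      (_ : Equivalence E) (Z : Finset X), F ≤ Z.card →
      (∀ z ∈ Z, ∀ z' ∈ Z, z ≠ z' → ∃ w, w ≠ z ∧ w ≠ z' ∧ ¬ E (f z w) (f z' w)) →
      ∃ x y : Fin m → X, Pattern f E lam x y := by
  classical
  obtain ⟨M, hM⟩ := ramsey (C × C × C × Bool × C × C × Λ × Λ) (m + 3)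
  obtain ⟨F, hF⟩ := exists_select C M
  refine ⟨F + 1, fun X f lam E hE Z hZ hsep => ?_⟩
  obtain ⟨x00, _⟩ := Finset.card_pos.mp (show 0 < Z.card by omega)
  obtain ⟨x, y, c, h1, h2, h3⟩ := hF X f E hE Z (by omega) hsep x00
  obtain ⟨a, e, hmono, hlt, he⟩ := hM (fun i j => (f (x i) (y j), f (x i) (x j), f (y i) (y j),
    decide (y j = x i), c i, f (x i) (y i), lam (x i), lam (y i)))
  have hval : ∀ i j : Fin (m + 3), i < j → f (x (a i)) (y (a j)) = e.1 ∧
      f (x (a i)) (x (a j)) = e.2.1 ∧ f (y (a i)) (y (a j)) = e.2.2.1 ∧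
      decide (y (a j) = x (a i)) = e.2.2.2.1 ∧ c (a i) = e.2.2.2.2.1 ∧
      f (x (a i)) (y (a i)) = e.2.2.2.2.2.1 ∧ lam (x (a i)) = e.2.2.2.2.2.2.1 ∧
      lam (y (a i)) = e.2.2.2.2.2.2.2 := by
    intro i j hij
    have := he i j hij
    rw [← this]
    exact ⟨rfl, rfl, rfl, rfl, rfl, rfl, rfl, rfl⟩
  -- the flag is false
  have hflag : e.2.2.2.1 = false := by
    by_contra hcon
    rw [Bool.not_eq_false] at hcon
    have e1 := (hval ⟨0, by omega⟩ ⟨2, by omega⟩ (by simp [Fin.lt_def])).2.2.2.1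
    have e2 := (hval ⟨1, by omega⟩ ⟨2, by omega⟩ (by simp [Fin.lt_def])).2.2.2.1
    rw [hcon, decide_eq_true_eq] at e1 e2
    have h01 : a ⟨0, by omega⟩ < a ⟨1, by omega⟩ := hmono (by simp [Fin.lt_def])
    exact (h3 _ _ h01 (hlt _)).2.2.1 (e2.symm.trans e1)
  let ι : Fin m → Fin (m + 3) := fun i => ⟨i.1, by omega⟩
  have hι : ∀ i j : Fin m, i < j → ι i < ι j := fun i j h => h
  have hlast : ∀ i : Fin m, ι i < (⟨m, by omega⟩ : Fin (m + 3)) := fun i => i.2
  refine ⟨fun i => x (a (ι i)), fun i => y (a (ι i)), ?_, ?_, ?_, ?_, ?_, ?_⟩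
  · intro i j hij
    simp only at hij
    rcases lt_trichotomy i j with h | h | h
    · exact absurd hij.symm (h3 _ _ (hmono (hι i j h)) (hlt _)).2.2.1
    · exact h
    · exact absurd hij (h3 _ _ (hmono (hι j i h)) (hlt _)).2.2.1
  · intro i j hij
    simp only at hij
    rcases lt_trichotomy i j with h | h | h
    · exact absurd hij.symm (h3 _ _ (hmono (hι i j h)) (hlt _)).2.2.2
    · exact h
    · exact absurd hij (h3 _ _ (hmono (hι j i h)) (hlt _)).2.2.2
  · intro i j hij
    rcases lt_trichotomy i j with h | h | h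
    · have := (hval _ _ (hι i j h)).2.2.2.1
      rw [hflag, decide_eq_false_iff_not] at this
      exact this hij.symm
    · subst h
      exact (h2 _ (hlt (ι i))).1 hij
    · exact (h3 _ _ (hmono (hι j i h)) (hlt _)).2.1 hij
  · refine ⟨e.1, e.2.2.2.2.2.1, e.2.2.2.2.1, e.2.1, e.2.2.1, ?_, ?_, ?_, ?_, ?_, ?_⟩
    · have h4 := (h2 _ (hlt ⟨0, by omega⟩)).2.1
      have h5 := hval ⟨0, by omega⟩ ⟨1, by omega⟩ (by simp [Fin.lt_def])
      rw [h5.2.2.2.2.1, h5.2.2.2.2.2.1] at h4
      exact h4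
    · intro i j hij; exact (hval _ _ (hι i j hij)).1
    · intro i; exact (hval _ _ (hlast i)).2.2.2.2.2.1
    · intro i j hij
      rw [(h3 _ _ (hmono (hι i j hij)) (hlt _)).1]
      exact (hval _ _ (hι i j hij)).2.2.2.2.1
    · intro i j hij; exact (hval _ _ (hι i j hij)).2.1
    · intro i j hij; exact (hval _ _ (hι i j hij)).2.2.1
  · intro i j
    rw [(hval _ _ (hlast i)).2.2.2.2.2.2.1, (hval _ _ (hlast j)).2.2.2.2.2.2.1]
  · intro i j
    rw [(hval _ _ (hlast i)).2.2.2.2.2.2.2, (hval _ _ (hlast j)).2.2.2.2.2.2.2]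

end Pool.Agent.Lib.MP_ab035a_co
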