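import Pool.Agent.Lib.MP_ab035a_co.Frame

/-!
# Parity of symmetric sums, and the effect of adding a group
-/

set_option autoImplicit false

namespace Pool.Agent.Lib.MP_ab035a_co

open Finset

section

variable {V : Type*} [DecidableEq V]

lemma sum_insert_symm (g : V → V → ℤ) (hg : ∀ u v, g u v = g v u) (a : V) (S : Finset V)
    (ha : a ∉ S) : ∑ u ∈ insert a S, ∑ v ∈ insert a S, g u v =
      ∑ u ∈ S, ∑ v ∈ S, g u v + 2 * ∑ v ∈ S, g a v + g a a := by
  rw [Finset.sum_insert ha, Finset.sum_insert ha]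
  have : ∀ u ∈ S, ∑ v ∈ insert a S, g u v = g a u + ∑ v ∈ S, g u v := by
    intro u _
    rw [Finset.sum_insert ha, hg u a]
  rw [Finset.sum_congr rfl this, Finset.sum_add_distrib]
  ring

lemma even_sum (d : ℕ) (g : V → V → ℤ) (hg : ∀ u v, g u v = g v u) (h0 : ∀ u, g u u = 0)
    (S : Finset V) (hd : ∀ u ∈ S, ∀ v ∈ S, u ≠ v → (d : ℤ) ∣ g u v) :
    ((2 * d : ℕ) : ℤ) ∣ ∑ u ∈ S, ∑ v ∈ S, g u v := by
  induction S using Finset.induction_on with
  | empty => simp
  | insert a S ha ih =>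
    rw [sum_insert_symm g hg a S ha, h0, add_zero]
    apply dvd_add (ih fun u hu v hv => hd u (mem_insert_of_mem hu) v (mem_insert_of_mem hv))
    push_cast
    apply mul_dvd_mul_left
    apply Finset.dvd_sum
    intro v hv
    exact hd a (mem_insert_self _ _) v (mem_insert_of_mem hv) (by rintro rfl; exact ha hv)

lemma sum_union_symm (g : V → V → ℤ) (hg : ∀ u v, g u v = g v u) (P Y : Finset V)
    (h : Disjoint P Y) : ∑ u ∈ P ∪ Y, ∑ v ∈ P ∪ Y, g u v =
      ∑ u ∈ P, ∑ v ∈ P, g u v + 2 * ∑ p ∈ P, ∑ y ∈ Y, g y p + ∑ u ∈ Y, ∑ v ∈ Y, g u v := by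
  rw [Finset.sum_union h]
  simp only [Finset.sum_union h, Finset.sum_add_distrib]
  have e1 : ∑ u ∈ Y, ∑ v ∈ P, g u v = ∑ p ∈ P, ∑ y ∈ Y, g y p := Finset.sum_comm
  have e2 : ∑ u ∈ P, ∑ v ∈ Y, g u v = ∑ p ∈ P, ∑ y ∈ Y, g y p :=
    Finset.sum_congr rfl fun p _ => Finset.sum_congr rfl fun y _ => hg p y
  rw [e1, e2]; ring

lemma group_sum (N : ℕ) (g : V → V → ℤ) (hg : ∀ u v, g u v = g v u) (h0 : ∀ u, g u u = 0)
    (P Y : Finset V) (h : Disjoint P Y) (hY : 2 * N ∣ Y.card)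
    (h1 : ∀ p ∈ P, ∀ y ∈ Y, ∀ y' ∈ Y, g y p ≡ g y' p [ZMOD N])
    (h2 : ∀ a ∈ Y, ∀ b ∈ Y, ∀ c ∈ Y, ∀ e ∈ Y, a ≠ b → c ≠ e → g a b ≡ g c e [ZMOD N]) :
    ∑ u ∈ P ∪ Y, ∑ v ∈ P ∪ Y, g u v ≡ ∑ u ∈ P, ∑ v ∈ P, g u v [ZMOD (2 * N : ℕ)] := by
  have hYz : ((2 * N : ℕ) : ℤ) ∣ (Y.card : ℤ) := by exact_mod_cast hY
  rw [sum_union_symm g hg P Y h]
  have c1 : ((2 * N : ℕ) : ℤ) ∣ 2 * ∑ p ∈ P, ∑ y ∈ Y, g y p := by
    push_cast
    apply mul_dvd_mul_left
    apply Finset.dvd_sum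
    intro p hp
    rcases Y.eq_empty_or_nonempty with rfl | ⟨y0, hy0⟩
    · simp
    · have e : ∑ y ∈ Y, g y p ≡ ∑ _y ∈ Y, g y0 p [ZMOD N] :=
        Int.ModEq.sum (fun y hy => h1 p hp y hy y0 hy0)
      rw [← Int.modEq_zero_iff_dvd]
      refine e.trans ?_
      rw [Finset.sum_const, nsmul_eq_mul, Int.modEq_zero_iff_dvd]
      apply Dvd.dvd.mul_right
      exact (Dvd.intro_left 2 (by push_cast; ring)).trans hYz
  have c2 : ((2 * N : ℕ) : ℤ) ∣ ∑ u ∈ Y, ∑ v ∈ Y, g u v := by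
    by_cases hex : ∃ a ∈ Y, ∃ b ∈ Y, a ≠ b
    · obtain ⟨a, ha, b, hb, hab⟩ := hex
      have e1 := even_sum N (fun u v => g u v - if u = v then 0 else g a b)
        (fun u v => by
          rw [hg u v]
          by_cases h : u = v
          · subst h; rfl
          · rw [if_neg h, if_neg (Ne.symm h)])
        (fun u => by simp [h0]) Y (fun u hu v hv huv => by
          rw [if_neg huv]
          exact (h2 a ha b hb u hu v hv hab huv).dvd)
      have e2 : ∑ u ∈ Y, ∑ v ∈ Y, g u v = ∑ u ∈ Y, ∑ v ∈ Y, (g u v - if u = v then 0 else g a b)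
          + ∑ u ∈ Y, ∑ v ∈ Y, (if u = v then 0 else g a b) := by
        simp only [← Finset.sum_add_distrib]
        refine Finset.sum_congr rfl fun u _ => Finset.sum_congr rfl fun v _ => by ring
      have e3 : ∑ u ∈ Y, ∑ v ∈ Y, (if u = v then 0 else g a b) =
          Y.card * (((Y.card : ℤ) - 1) * g a b) := by
        have : ∀ u ∈ Y, ∑ v ∈ Y, (if u = v then 0 else g a b) = ((Y.card : ℤ) - 1) * g a b := by
          intro u hu
          have e4 : ∀ v, (if u = v then 0 else g a b) = g a b - if u = v then g a b else 0 := by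
            intro v; split_ifs <;> ring
          simp only [e4, Finset.sum_sub_distrib, Finset.sum_const, nsmul_eq_mul,
            Finset.sum_ite_eq, if_pos hu]
          ring
        rw [Finset.sum_congr rfl this, Finset.sum_const, nsmul_eq_mul]
      rw [e2, e3]
      exact dvd_add e1 (Dvd.dvd.mul_right hYz _)
    · push Not at hex
      have : ∑ u ∈ Y, ∑ v ∈ Y, g u v = 0 := by
        apply Finset.sum_eq_zero
        intro u hu
        apply Finset.sum_eq_zero
        intro v hv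
        rw [hex u hu v hv, h0]
      rw [this]; exact dvd_zero _
  rw [← Int.modEq_zero_iff_dvd] at c1 c2
  have := ((Int.ModEq.refl (∑ u ∈ P, ∑ v ∈ P, g u v)).add c1).add c2
  simpa using this

/-- Residual classes: enlarge `Z` so that all remaining class sizes are divisible by `q`. -/
lemma exists_residual [Fintype V] {a : ℕ} (q : ℕ) (hq : 0 < q) (cl : V → Fin a)
    (Z : Finset V) : ∃ P : Finset V, Z ⊆ P ∧ P.card ≤ Z.card + a * q ∧
      ∀ s, q ∣ ((univ : Finset V).filter (fun v => v ∉ P ∧ cl v = s)).card := by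
  have hex : ∀ s : Fin a, ∃ R ⊆ (univ : Finset V).filter (fun v => v ∉ Z ∧ cl v = s),
      R.card = ((univ : Finset V).filter (fun v => v ∉ Z ∧ cl v = s)).card % q := fun s =>
    Finset.exists_subset_card_eq (Nat.mod_le _ _)
  choose R hR hRc using hex
  refine ⟨Z ∪ univ.biUnion R, Finset.subset_union_left, ?_, ?_⟩
  · refine (Finset.card_union_le _ _).trans (Nat.add_le_add_left ?_ _)
    refine Finset.card_biUnion_le.trans ?_
    calc ∑ s : Fin a, (R s).card ≤ ∑ _s : Fin a, q := Finset.sum_le_sum (fun s _ => by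
          rw [hRc s]; exact (Nat.mod_lt _ hq).le)
      _ = a * q := by simp
  · intro s
    have e1 : (univ : Finset V).filter (fun v => v ∉ Z ∪ univ.biUnion R ∧ cl v = s) =
        (univ : Finset V).filter (fun v => v ∉ Z ∧ cl v = s) \ R s := by
      ext v
      simp only [mem_filter, mem_univ, true_and, mem_union, mem_biUnion, mem_sdiff]
      constructor
      · rintro ⟨h1, h2⟩
        push Not at h1
        exact ⟨⟨h1.1, h2⟩, h1.2 s⟩
      · rintro ⟨⟨h1, h2⟩, h3⟩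
        refine ⟨?_, h2⟩
        rintro (h4 | ⟨s', h4⟩)
        · exact h1 h4
        · have := hR s' h4
          rw [mem_filter] at this
          have hs : s' = s := this.2.2.symm.trans h2
          rw [hs] at h4
          exact h3 h4
    rw [e1, Finset.card_sdiff_of_subset (hR s), hRc s]
    exact Nat.dvd_sub_mod _

/-- Place a small set injectively into a long injective sequence. -/
lemma exists_place {X : Type*} {q : ℕ} (Q : Fin q → X) (hQ : Function.Injective Q) (x0 : X)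
    (P : Finset V) (hP : P.card ≤ q) :
    ∃ φ : V → X, Set.InjOn φ (P : Set V) ∧ ∀ v ∈ P, ∃ i, φ v = Q i := by
  classical
  refine ⟨fun v => if h : v ∈ P then Q ⟨(P.equivFin ⟨v, h⟩).1,
    lt_of_lt_of_le (P.equivFin ⟨v, h⟩).2 hP⟩ else x0, ?_, ?_⟩
  · intro u hu v hv huv
    simp only [mem_coe] at hu hv
    simp only [dif_pos hu, dif_pos hv] at huv
    have h1 := hQ huv
    simp only [Fin.mk.injEq] at h1
    have h2 := P.equivFin.injective (Fin.ext h1)
    exact congrArg Subtype.val h2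
  · intro v hv
    exact ⟨_, dif_pos hv⟩

end

/-- Monochromatic cliques. -/
lemma exists_mono (k q : ℕ) (hk : 0 < k) : ∃ M : ℕ, ∀ I : Inst k, M ≤ I.N →
    ∃ (Q : Fin q → Fin I.N) (γ : ℤ), Function.Injective Q ∧
      ∀ i j, i ≠ j → I.c (Q i) (Q j) = γ := by
  have : Nonempty (Fin k) := ⟨⟨0, hk⟩⟩
  obtain ⟨M, hM⟩ := ramsey (Fin k) q
  refine ⟨M, fun I hI => ?_⟩
  obtain ⟨a, e, hmono, hlt, he⟩ := hM (fun i j =>
    if h : i < I.N ∧ j < I.N then ⟨(I.c ⟨i, h.1⟩ ⟨j, h.2⟩).toNat, by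
      have := I.c_range ⟨i, h.1⟩ ⟨j, h.2⟩; omega⟩ else ⟨0, hk⟩)
  have hlt' : ∀ i, a i < I.N := fun i => lt_of_lt_of_le (hlt i) hI
  have key : ∀ i j, i < j → I.c ⟨a i, hlt' i⟩ ⟨a j, hlt' j⟩ = ((e : ℕ) : ℤ) := by
    intro i j hij
    have h1 := he i j hij
    simp only [hlt' i, hlt' j, and_self, dif_pos] at h1
    rw [← h1]
    simp only
    exact (Int.toNat_of_nonneg (I.c_range _ _).1).symm
  refine ⟨fun i => ⟨a i, hlt' i⟩, ((e : ℕ) : ℤ), ?_, ?_⟩
  · intro i j hij
    simp only [Fin.mk.injEq] at hij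
    exact hmono.injective hij
  · intro i j hij
    rcases lt_or_gt_of_ne hij with h | h
    · exact key i j h
    · rw [I.c_symm]; exact key j i h

end Pool.Agent.Lib.MP_ab035a_co
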